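import Mathlib

set_option autoImplicit false

/-!
# Project SCH (MP_c13f7d_co): 3-colourings one class of which is an interval

`L = {1, …, c}` and `U = {d+1, …, n}` (`u = n - d`) are coloured with two colours, the third colour
class is the interval `{c+1, …, d}`, `d ≥ 2 c`.
-/

namespace Pool.Agent.Helper55.SCH

open Finset

/-- monochromatic ordered pairs `(x, y)` in `L` with `x + y` in `L`, and twice the monochromatic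
pairs `x` in `L`, `v` in `U` with `x + v` in `U` (`U` is parametrised by `1, …, u`) -/
def T (c u : ℕ) (s r : ℕ → Bool) : ℕ :=
  ((Icc 1 c ×ˢ Icc 1 c).filter
    (fun q : ℕ × ℕ => q.1 + q.2 ≤ c ∧ s q.1 = s q.2 ∧ s q.2 = s (q.1 + q.2))).card +
  2 * ((Icc 1 c ×ˢ Icc 1 u).filter
    (fun q : ℕ × ℕ => q.1 + q.2 ≤ u ∧ s q.1 = r q.2 ∧ r q.2 = r (q.1 + q.2))).card

/-- number of pairs `x` in `L`, `v` in `U` with `x + v` in `U` -/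
def NP (c u : ℕ) : ℕ := ((Icc 1 c ×ˢ Icc 1 u).filter (fun q : ℕ × ℕ => q.1 + q.2 ≤ u)).card

/-- partial sums -/
def S (s : ℕ → ℝ) (k : ℕ) : ℝ := ∑ x ∈ Icc 1 k, s x

/-- signs -/
def sg (N : ℕ) (s : ℕ → Bool) (x : ℕ) : ℝ := if x ∈ Icc 1 N then (if s x then 1 else -1) else 0

/-- the quadratic form -/
def Q (c u : ℕ) (s r : ℕ → ℝ) : ℝ :=
  S s c ^ 2 + ∑ x ∈ Icc 1 c, s x * S s (c - x)
  + 2 * ∑ x ∈ Icc 1 c, s x * (S r (u - x) + S r u - S r x)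
  + ∑ v ∈ Icc 1 u, r v * (S r (v + c) - S r (v - 1 - c))

/-- half of its partial derivatives -/
def g (c u : ℕ) (s r : ℕ → ℝ) (x : ℕ) : ℝ :=
  S s c + S s (c - x) + (S r (u - x) + S r u - S r x)
def w (c u : ℕ) (s r : ℕ → ℝ) (v : ℕ) : ℝ :=
  S s (u - v) + S s (v - 1) + (S r (v + c) - S r (v - 1 - c))

/-- clamp -/
noncomputable def Phi (lam t : ℝ) : ℝ := max (-1) (min 1 (t / lam))
/-- Huber function, the primitive of `Phi` -/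
noncomputable def Hub (lam t : ℝ) : ℝ :=
  if |t| ≤ lam then t ^ 2 / (2 * lam) else |t| - lam / 2

/-- critical points of `Q + lam * |.|²` on the cube -/
structure Crit (c u : ℕ) (lam : ℝ) (s r : ℕ → ℝ) : Prop where
  s0 : ∀ x, x ∉ Icc 1 c → s x = 0
  r0 : ∀ v, v ∉ Icc 1 u → r v = 0
  hs : ∀ x ∈ Icc 1 c, s x = - Phi lam (g c u s r x)
  hr : ∀ v ∈ Icc 1 u, r v = - Phi lam (w c u s r v)

/-- simplified functions for `u ≤ c` -/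
def g1 (c u : ℕ) (s r : ℕ → ℝ) (x : ℕ) : ℝ := S s c + S s (c - x) + 2 * (S r u - S r x)
def w1 (u : ℕ) (s r : ℕ → ℝ) (v : ℕ) : ℝ := S s (u - v) + S s (v - 1) + S r u

/-- critical points for `u ≤ c`: `r` is symmetric, and the sign is chosen so that `S s c ≤ 0` -/
structure Crit1 (c u : ℕ) (lam : ℝ) (s r : ℕ → ℝ) : Prop where
  hu : u ≤ c
  lam1 : 1 ≤ lam
  s0 : ∀ x, x ∉ Icc 1 c → s x = 0
  r0 : ∀ v, v ∉ Icc 1 u → r v = 0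
  rs : ∀ v ∈ Icc 1 u, r (u + 1 - v) = r v
  hs : ∀ x ∈ Icc 1 c, s x = - Phi lam (g1 c u s r x)
  hr : ∀ v ∈ Icc 1 u, r v = - Phi lam (w1 u s r v)
  neg : S s c ≤ 0

/-- densities of the first colour -/
noncomputable def al (s : ℕ → ℝ) (x : ℕ) : ℝ := (1 + s x) / 2

/-- the real numbers which enter the final inequalities; `c, u` are the lengths of `L, U`, `p` is a
cut, `E` is the error, `m = - S s c`, `i = - S r u`, `g0n, g0p` the negative and positive part of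
`g 0`, `gpn, gpp` of `g (c - p)`, `w0n, w0p` of `w` at the ends, `wmn, wmp` of `w` in the middle;
`n1o = ∑_{x ≤ p} α x α (c+1-x)`, `n1i = (1/2) ∑_{p < x ≤ c-p} α x α (c+1-x)`,
`n2 = ∑_{v ≤ u} α v ρ v`, `x1` the first half of this sum; `A1, Ap, A, au, a2` the sums of `α` over
`(0,p]`, `(c-p,c]`, `(0,c-p]`, `(0,u]`, `(0,u/2]`. -/
structure V where
  (c u p E m i g0n g0p gpn gpp w0n w0p wmn wmp n1o n1i n2 A1 Ap A au a2 x1 : ℝ)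

/-- the linear relations between these numbers -/
structure Data (v : V) : Prop where
  hE : 0 ≤ v.E
  hc : 0 ≤ v.c
  hu : 0 ≤ v.u
  huc : v.u ≤ v.c
  hpu : v.p + v.u ≤ v.c
  hp2 : 2 * v.p ≤ v.c
  hp : 0 ≤ v.p
  hm : 0 ≤ v.m
  hg0n : 0 ≤ v.g0n
  hg0p : 0 ≤ v.g0p
  hgpn : 0 ≤ v.gpn
  hgpp : 0 ≤ v.gpp
  hw0n : 0 ≤ v.w0n
  hw0p : 0 ≤ v.w0p
  hwmn : 0 ≤ v.wmn
  hwmp : 0 ≤ v.wmp
  e1 : |v.g0n - v.g0p - 2 * (v.m + v.i)| ≤ v.E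
  e2 : |v.gpp - v.gpn - (2 * v.A1 - v.p - v.m)| ≤ v.E
  e3 : |v.w0p - v.w0n - (2 * v.au - v.u - v.i)| ≤ v.E
  e4 : |v.wmp - v.wmn - (4 * v.a2 - v.u - v.i)| ≤ v.E
  dg0 : v.g0n = 0 ∨ v.g0p = 0
  dgp : v.gpn = 0 ∨ v.gpp = 0
  dw0 : v.w0n = 0 ∨ v.w0p = 0
  dwm : v.wmn = 0 ∨ v.wmp = 0
  Z : |v.m - v.gpn - (2 * v.n1o - v.Ap)| ≤ v.E
  tot : |v.A + v.Ap - (v.c - v.m) / 2| ≤ v.E
  D : |v.gpn - v.g0n - (2 * v.n1o + 4 * v.n1i - v.A + 4 * v.n2 - 2 * v.au)| ≤ v.E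
  W : |v.wmn - v.w0n - (2 * (v.n2 - v.x1) - 2 * v.x1)| ≤ v.E
  iu : v.i ≤ v.u + v.E
  ui : -v.u - v.E ≤ v.i
  n1o0 : -v.E ≤ v.n1o
  n1oA1 : v.n1o ≤ v.A1 + v.E
  n1oAp : v.n1o ≤ v.Ap + v.E
  nb1o : v.A1 + v.Ap ≤ v.p + v.n1o + v.E
  App : v.Ap ≤ v.p + v.E
  A1p : v.A1 ≤ v.p + v.E
  A10 : -v.E ≤ v.A1
  Ap0 : -v.E ≤ v.Ap
  n1i0 : -v.E ≤ v.n1i
  n1iA : 2 * v.n1i ≤ v.A - v.A1 + v.E
  nb1i : 2 * (v.A - v.A1) ≤ 2 * v.n1i + (v.c - 2 * v.p) + v.E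
  A1A : v.A1 ≤ v.A + v.E
  AA1 : v.A - v.A1 ≤ v.c - 2 * v.p + v.E
  auA : v.au ≤ v.A + v.E
  Aau : v.A - v.au ≤ v.c - v.p - v.u + v.E
  au0 : -v.E ≤ v.au
  x10 : -v.E ≤ v.x1
  x1a : v.x1 ≤ v.a2 + v.E
  x1r : v.x1 ≤ (v.u - v.i) / 4 + v.E
  y1 : v.a2 + (v.u - v.i) / 4 ≤ v.u / 2 + v.x1 + v.E
  x20 : -v.E ≤ v.n2 - v.x1
  x2a : v.n2 - v.x1 ≤ v.au - v.a2 + v.E
  x2r : v.n2 - v.x1 ≤ (v.u - v.i) / 4 + v.E
  y2 : (v.au - v.a2) + (v.u - v.i) / 4 ≤ v.u / 2 + (v.n2 - v.x1) + v.E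
  a20 : -v.E ≤ v.a2
  a2u : v.a2 ≤ v.u / 2 + v.E
  b20 : -v.E ≤ v.au - v.a2
  b2u : v.au - v.a2 ≤ v.u / 2 + v.E
  rt : v.w0n + v.wmn ≤ (v.u - v.i) / 2 + v.E ∨ v.u ≤ (v.u - v.i) / 2 + v.E
  rb : v.w0p + v.wmp ≤ (v.u + v.i) / 2 + v.E ∨ v.u ≤ (v.u + v.i) / 2 + v.E
  gt : v.g0n + v.gpn ≤ 3 * v.A + v.E ∨ v.c - v.p ≤ v.A + v.E
  T0 : v.g0n ≤ 3 * v.a2 + v.E ∨ v.u / 2 ≤ v.a2 + v.E
  cr : v.m ≤ v.n1o + v.E ∨ v.p ≤ v.Ap + v.E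

end Pool.Agent.Helper55.SCH
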