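import Pool.Agent.Helper55.SCH.Main
import Pool.Agent.Helper43.LO.Main

set_option autoImplicit false

namespace Pool.Agent.Helper55.SCH

open Finset Pool.Agent.Helper33.Schur Pool.Agent.Helper43.LO

/-- the seven-interval colouring has a class which is an interval `(c, d]` with
`67 c² ≥ 2 n²` -/
theorem ref_class (n : ℕ) (hn : 5 ≤ n) :
    (∀ x ∈ Icc 1 n, (ref n x = 2 ↔ 26 * n / 67 < x ∧ x ≤ 54 * n / 67)) ∧
    2 * n ^ 2 ≤ 67 * (26 * n / 67) ^ 2 := by
  constructor
  · intro x hx
    rw [mem_Icc] at hx
    unfold ref
    have k1 : 26 * n / 67 < x ↔ 26 * n < 67 * x := by omega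
    have k2 : x ≤ 54 * n / 67 ↔ 67 * x ≤ 54 * n := by omega
    rw [k1, k2]
    split_ifs with h1 h2 h3 h4 h5 h6
    · constructor
      · intro h; exact absurd h (by decide)
      · intro h; omega
    · constructor
      · intro h; exact absurd h (by decide)
      · intro h; omega
    · constructor
      · intro h; exact absurd h (by decide)
      · intro h; omega
    · constructor
      · intro _; omega
      · intro _; rfl
    · constructor
      · intro h; exact absurd h (by decide)
      · intro h; omega
    · constructor
      · intro h; exact absurd h (by decide)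
      · intro h; omega
    · constructor
      · intro h; exact absurd h (by decide)
      · intro h; omega
  · have h1 : 26 * n ≤ 67 * (26 * n / 67) + 66 := by omega
    set c := 26 * n / 67 with hc
    rcases Nat.lt_or_ge n 12 with q | q
    · have : c = 26 * n / 67 := hc
      interval_cases n <;> simp_all
    · have h2 : 11 * n ≤ 60 * c + 60 := by omega
      have h3 : 9 * n ≤ 52 * c := by omega
      nlinarith

end Pool.Agent.Helper55.SCH
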