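import Pool.Agent.Helper55.SCH.Main
import Pool.Agent.Helper55.SCH.RefPart
import Pool.Agent.Helper30.SCH.HUB
import Pool.Agent.Helper14.SCH.MIN
import Pool.Agent.Helper35.SCH.COUNT
import Pool.Agent.Helper86.SCH.NPC
import Pool.Agent.Helper91.SCH.CR1
import Pool.Agent.Helper35.SCH.TELG
import Pool.Agent.Helper83.SCH.TELW
import Pool.Agent.Helper90.SCH.POH
import Pool.Agent.Helper96.SCH.TIME
import Pool.Agent.Helper74.SCH.CROSS
import Pool.Agent.Helper49.SCH.RED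
import Pool.Agent.Helper39.SCH.RED0
import Pool.Agent.Helper16.SCH.DZ
import Pool.Agent.Helper20.SCH.DW
import Pool.Agent.Helper13.SCH.DT
import Pool.Agent.Helper2.SCH.DATA
import Pool.Agent.Helper9.SCH.CR2
import Pool.Agent.Helper4.SCH.POH2
import Pool.Agent.Helper64.SCH.CL2

set_option autoImplicit false

/-!
# Project SCH: the theorem
-/

namespace Pool.Agent.Helper55.SCH

open Finset Pool.Agent.Helper33.Schur

theorem hHUB : G_HUB := Pool.Agent.Helper30.SCH.goalHUB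
theorem hTELG : G_TELG := Pool.Agent.Helper35.SCH.goalTELG hHUB
theorem hTELW : G_TELW := Pool.Agent.Helper83.SCH.goalTELW hHUB

theorem b1 : B1 := by
  intro c u p hu huc hpu h2p s r
  exact bound1 hHUB Pool.Agent.Helper14.SCH.goalMIN Pool.Agent.Helper35.SCH.goalCOUNT
    Pool.Agent.Helper86.SCH.goalNPC Pool.Agent.Helper91.SCH.goalCR1
    (Pool.Agent.Helper90.SCH.goalPOH hHUB hTELG hTELW)
    (Pool.Agent.Helper2.SCH.goalDATA hHUB Pool.Agent.Helper16.SCH.goalDZ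
      Pool.Agent.Helper20.SCH.goalDW Pool.Agent.Helper13.SCH.goalDT hTELG hTELW
      Pool.Agent.Helper96.SCH.goalTIME Pool.Agent.Helper74.SCH.goalCROSS)
    c u p hu huc hpu h2p s r

theorem interval_class :
    ∃ K : ℝ, ∀ (n c d : ℕ) (χ : ℕ → Fin 3) (k : Fin 3),
      (∀ x ∈ Icc 1 n, (χ x = k ↔ c < x ∧ x ≤ d)) → 2 * n ^ 2 ≤ 67 * c ^ 2 →
      (n : ℝ) ^ 2 / 134 - K * (n * Real.sqrt n) ≤ schurMono χ n :=
  final b1 (main_two hHUB Pool.Agent.Helper96.SCH.goalTIME Pool.Agent.Helper14.SCH.goalMIN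
    Pool.Agent.Helper35.SCH.goalCOUNT Pool.Agent.Helper86.SCH.goalNPC
    Pool.Agent.Helper9.SCH.goalCR2 Pool.Agent.Helper4.SCH.goalPOH2 Pool.Agent.Helper64.SCH.goalCL2)
    Pool.Agent.Helper49.SCH.goalRED Pool.Agent.Helper39.SCH.goalRED0

end Pool.Agent.Helper55.SCH
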