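import Pool.Agent.Helper55.SCH.Defs
import Pool.Agent.Helper33.SchurDefs

set_option autoImplicit false

/-!
# Project SCH (MP_c13f7d_co): statements to prove

Target: a 3-colouring of `{1, …, n}` one class of which is an interval `(c, d]` with
`67 c² ≥ 2 n²` has at least `n² / 134 - K n^(3/2)` monochromatic Schur triples.
`Lp1.lean`, `Lp2.lean` contain the (proved) finite-dimensional part.
Every statement below is independent: if another one is needed it is given as a hypothesis.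
-/

namespace Pool.Agent.Helper55.SCH

open Finset Pool.Agent.Helper33.Schur

/-- HUB.  Facts on the clamp `Phi` and the Huber function `Hub`.  All are case distinctions on
`|t| ≤ lam`; for the fifth (convexity with second derivative in `[0, 1/lam]`): with `f b = Hub b -
Hub a - Phi a (b - a)` either a case distinction on the position of `a` and `b` with respect to
`± lam`, or the mean value theorem (the derivative of `Hub` is `Phi`, which is monotone and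
`1/lam`-Lipschitz). -/
def G_HUB : Prop := ∀ lam : ℝ, 0 < lam →
  (∀ t, |Phi lam t| ≤ 1) ∧
  (∀ t, Phi lam (-t) = - Phi lam t ∧ Hub lam (-t) = Hub lam t) ∧
  (∀ a b, |Phi lam a - Phi lam b| ≤ |a - b| / lam) ∧
  (∀ a b, 0 ≤ Hub lam b - Hub lam a - Phi lam a * (b - a) ∧
    Hub lam b - Hub lam a - Phi lam a * (b - a) ≤ (b - a) ^ 2 / (2 * lam)) ∧
  (∀ t, |t| - lam / 2 ≤ Hub lam t ∧ Hub lam t ≤ |t|) ∧
  (∀ t, Phi lam t * t ≤ Hub lam t + lam / 2) ∧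
  (∀ t, t ≤ - lam → Phi lam t = -1) ∧ (∀ t, lam ≤ t → Phi lam t = 1)

/-- MIN.  The minimiser of `Q + lam (∑ s² + ∑ r²)` on the cube is a critical point.  Proof.  Let
`K` be the set of pairs `(s, r)` of functions `ℕ → ℝ` with `s x ∈ [-1, 1]` for `x ∈ Icc 1 c`,
`s x = 0` otherwise, and the same for `r` and `u`; it is compact (Tychonoff, `isCompact_univ_pi`)
and `F s r = Q s r + lam (∑_{Icc 1 c} s² + ∑_{Icc 1 u} r²)` is continuous (a polynomial in finitely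
many coordinates; `S` is a finite sum), so there is a minimiser `(s, r)`.  For `x ∈ Icc 1 c` and
real `t` one has `F (s + t e_x) r = F s r + 2 t (g x + lam * s x) + t² (κ + lam)` with
`κ = 1` or `2` (`1 + [2 x ≤ c]`), because `Q` is a quadratic form with the symmetric matrix
`1 + [x + y ≤ c]` (for `s, s`), `[v ≤ u - x] + [x < v]` (for `s, r`), `[|v - v'| ≤ c]` (for `r, r`),
and `g`, `w` are half of the gradient.  If `s x < 1`, small `t > 0` is allowed, so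
`g x + lam * s x ≥ 0`; if `s x > -1`, small `t < 0` is allowed, so `g x + lam * s x ≤ 0`.  Hence
`s x = - Phi lam (g x)`: if `-1 < s x < 1` then `s x = - g x / lam`; if `s x = 1` then
`g x ≤ - lam`; if `s x = -1` then `g x ≥ lam`.  The same for `r`.  Finally
`Q s r ≤ F s r ≤ F s' r' ≤ Q s' r' + lam (c + u)`.  (A cleaner way: prove it for a general
symmetric matrix on a `Fintype` and specialise.) -/
def G_MIN : Prop := ∀ (c u : ℕ) (lam : ℝ), 0 < lam →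
  ∃ s r : ℕ → ℝ, Crit c u lam s r ∧
    ∀ s' r' : ℕ → ℝ, (∀ x, |s' x| ≤ 1) → (∀ v, |r' v| ≤ 1) →
      (∀ x, x ∉ Icc 1 c → s' x = 0) → (∀ v, v ∉ Icc 1 u → r' v = 0) →
      Q c u s r - lam * (c + u) ≤ Q c u s' r'

/-- COUNT.  For signs `a, b, c` one has `[a = b = c] = (1 + a b + b c + a c) / 4`.
First part: `∑_{x,y ≥ 1, x + y ≤ c}` of this: the number of pairs is `c (c - 1) / 2`,
`∑ s x s y = ∑ x, s x * S s (c - x)`, and `∑ s x s (x+y) = ∑_{x < z ≤ c} s x s z =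
(S s c ^ 2 - c) / 2`, twice.  Second part: `∑_{x ≤ c, v, x + v ≤ u}`: the number of pairs is `NP`,
`∑ r v r (x+v) = (∑ v, r v (S r (v + c) - S r (v - 1 - c)) - u) / 2` (pairs `v < v'` with
`v' - v ≤ c`; `S r (v+c) - S r (v-1-c)` is the sum of `r v'` over `|v - v'| ≤ c`),
`∑ s x r v = ∑ x, s x * S r (u - x)`, `∑ s x r (x+v) = ∑ x, s x * (S r u - S r x)` (both for
`x ≤ u`; for `x > u` both sides vanish, `sg u r` being zero outside `Icc 1 u`). -/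
def G_COUNT : Prop := ∀ (c u : ℕ) (s r : ℕ → Bool),
  2 * (T c u s r : ℝ) =
    (c : ℝ) ^ 2 / 4 - 3 * c / 4 + NP c u - (u : ℝ) / 2 + Q c u (sg c s) (sg u r) / 2

/-- NPC.  Number of pairs. -/
def G_NPC : Prop :=
  (∀ c u : ℕ, u ≤ c → (NP c u : ℝ) = (u : ℝ) * (u - 1) / 2) ∧
  (∀ c : ℕ, (NP c (2 * c) : ℝ) = (3 * (c : ℝ) ^ 2 - c) / 2)

/-- CR1.  Simplification of critical points for `u ≤ c`.  Proof.  For `1 ≤ v ≤ u ≤ c` one has
`S r (v + c) = S r u` (`r` vanishes beyond `u`) and `v - 1 - c = 0`, so `w v = S s (u - v) +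
S s (v - 1) + S r u`, which is invariant under `v ↦ u + 1 - v`; hence `r (u + 1 - v) = r v`, hence
`S r (u - x) = S r u - S r x` for `x ≤ u` (reindex), and for `x > u` both sides are `0`; so
`g x = g1 x`.  `Q = ∑ s g + ∑ r w` (Euler; expand all sums, exchange the order of summation in
`∑_x s x (S r (u-x) + S r u - S r x) = ∑_v r v (S s (u-v) + S s (v-1))`, with `s = 0` outside
`Icc 1 c`).  Sign: if `S s c > 0` replace `(s, r)` by `(-s, -r)`: `g, w` change sign, `Phi` is odd,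
`Q` is even. -/
def G_CR1 : Prop := ∀ (c u : ℕ) (lam : ℝ) (s r : ℕ → ℝ), u ≤ c → 1 ≤ lam → Crit c u lam s r →
  ∃ s' r' : ℕ → ℝ, Crit1 c u lam s' r' ∧
    Q c u s r = ∑ x ∈ Icc 1 c, s' x * g1 c u s' r' x + ∑ v ∈ Icc 1 u, r' v * w1 u s' r' v

/-- TELG.  Telescoping for `g1`.  `g1 x - g1 (x-1) = - s (c+1-x) - 2 r x` for `1 ≤ x ≤ c`
(absolute value at most 3); by HUB (convexity, at the point `g1 x`), `Hub (g1 x) - Hub (g1 (x-1)) =
Phi (g1 x) (g1 x - g1 (x-1)) - θ`, `0 ≤ θ ≤ 9 / (2 lam)`, and `Phi (g1 x) = - s x`.  Sum over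
`Ioc a b`. -/
def G_TELG : Prop := ∀ (c u : ℕ) (lam : ℝ) (s r : ℕ → ℝ), Crit1 c u lam s r →
  ∀ a b : ℕ, a ≤ b → b ≤ c →
    g1 c u s r b - g1 c u s r a = - ∑ x ∈ Ioc a b, (s (c + 1 - x) + 2 * r x) ∧
    |Hub lam (g1 c u s r b) - Hub lam (g1 c u s r a)
      - ∑ x ∈ Ioc a b, s x * (s (c + 1 - x) + 2 * r x)| ≤ 5 * (b - a : ℝ) / lam

/-- TELW.  Telescoping for `w1`.  `w1 (v+1) - w1 v = s v - s (u - v)` for `1 ≤ v ≤ u - 1` (absolute
value at most 2); `Hub (w1 (v+1)) - Hub (w1 v) = Phi (w1 v) (w1 (v+1) - w1 v) + θ`,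
`0 ≤ θ ≤ 2 / lam`, `Phi (w1 v) = - r v`; and `r v = r (u+1-v)` differs from `r (u - v)` by at most
`2 / lam` (`Phi` is `1/lam`-Lipschitz and `w1` is 2-Lipschitz), so `r v s (u-v)` may be replaced by
`r (u-v) s (u-v)`. -/
def G_TELW : Prop := ∀ (c u : ℕ) (lam : ℝ) (s r : ℕ → ℝ), Crit1 c u lam s r →
  ∀ a b : ℕ, 1 ≤ a → a ≤ b → b ≤ u →
    w1 u s r b - w1 u s r a = ∑ v ∈ Ico a b, (s v - s (u - v)) ∧
    |Hub lam (w1 u s r b) - Hub lam (w1 u s r a)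
      + ∑ v ∈ Ico a b, r v * s v - ∑ v ∈ Ico a b, r (u - v) * s (u - v)| ≤ 4 * (b - a : ℝ) / lam

/-- POH.  Dilation identity.  Proof.  By HUB `s x g x = - Phi (g x) g x ≥ - Hub (g x) - lam/2`, the
same for `w`.  Abel summation: `∑_{x=1}^c H(g x) = c H(g c) - ∑_{x=2}^c (x-1) (H(g x) - H(g (x-1)))`
and `H(g x) - H(g (x-1)) ≥ s x (s (c+1-x) + 2 r x) - 9/(2 lam)` (see TELG, case `a = x-1, b = x`;
here `5 / lam` is good enough), so
`∑ H(g x) ≤ c H(g c) - ∑ (x-1) s x s (c+1-x) - 2 ∑ (x-1) s x r x + 5 c² / lam`, and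
`∑_{x=1}^c (x-1) s x s (c+1-x) = ((c-1)/2) ∑ s x s (c+1-x)` (reflect).  Next
`∑_{v=1}^u H(w v) = u H(w u) - ∑_{v=1}^{u-1} v (H(w (v+1)) - H(w v)) ≤ u H(w u) +
∑_{v<u} v r v s v - ∑_{v<u} v r (u-v) s (u-v) + 4 u²/lam` (TELW) and the second sum is
`∑_{v<u} (u - v) r v s v` (reflect), so this is `u H(w u) + 2 ∑_{v ≤ u} v r v s v -
u ∑_{v ≤ u} r v s v + O(u)`.  The two sums `∑ v r v s v` cancel up to `O(u)` (`r v = 0` for
`v > u`).  `H(t) ≤ |t|`, `g1 c = S s c`.  All errors together are at most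
`20 (c²/lam + c lam)` since `u ≤ c`, `lam ≥ 1`. -/
def G_POH : Prop := ∀ (c u : ℕ) (lam : ℝ) (s r : ℕ → ℝ), Crit1 c u lam s r → 1 ≤ u →
  - (c : ℝ) * |S s c| - u * |w1 u s r u| + (c / 2 : ℝ) * ∑ x ∈ Icc 1 c, s x * s (c + 1 - x)
      + u * ∑ v ∈ Icc 1 u, r v * s v - 20 * ((c : ℝ) ^ 2 / lam + c * lam)
    ≤ ∑ x ∈ Icc 1 c, s x * g1 c u s r x + ∑ v ∈ Icc 1 u, r v * w1 u s r v

/-- TIME.  Time spent below a level.  `a` has slope at most `l`, `y x ∈ [0, 1]`, and `y x = 1` where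
`a x ≤ - lam`.  If all `x ∈ Icc p q` have `a x ≤ - lam`, the second alternative holds.  Otherwise let
`x0` (`x1`) be the first (last) `x ∈ Icc p q` with `a x > - lam`; `l (x0 - p) ≥ - a p - lam` and
`l (q - x1) ≥ - a q - lam`, and `y = 1` on `[p, x0)` and on `(x1, q]`. -/
def G_TIME : Prop := ∀ (p q : ℕ) (l lam : ℝ) (a y : ℕ → ℝ), p ≤ q → 0 ≤ l → 0 ≤ lam →
  (∀ x, p ≤ x → x < q → |a (x + 1) - a x| ≤ l) →
  (∀ x ∈ Icc p q, 0 ≤ y x ∧ y x ≤ 1 ∧ (a x ≤ - lam → y x = 1)) →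
  max (- a p) 0 + max (- a q) 0 - 2 * lam ≤ l * ∑ x ∈ Icc p q, y x ∨
    ∀ x ∈ Icc p q, y x = 1

/-- CROSS.  `f t = g1 (c - t)`.  If `g1 x ≤ - lam` for all `x ∈ Ioc (c-p) c`, then `s x = 1` there
(second alternative).  Otherwise let `t` be the least `t < p` with `g1 (c - t) > - lam`.  For
`t' < t`, `s (c - t') = 1`, i.e. `al s x = 1` for `x ∈ Ioc (c-t) c`.  As `r = 0` beyond `u ≤ c - p`,
`g1 (c - t) = S s c + S s t` (`S r (c-t) = S r u`), so `S s t > - S s c - lam`.  The sum over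
`Icc 1 p` of `al s x * al s (c+1-x)` is at least the part `x ≤ t`, where `al s (c+1-x) = 1`, i.e.
`∑_{x ≤ t} al s x = (t + S s t) / 2 ≥ S s t` (since `S s t ≤ t`). -/
def G_CROSS : Prop := ∀ (c u : ℕ) (lam : ℝ) (s r : ℕ → ℝ), Crit1 c u lam s r →
  ∀ p : ℕ, p + u ≤ c →
    - S s c - lam ≤ ∑ x ∈ Icc 1 p, al s x * al s (c + 1 - x) ∨
    (p : ℝ) ≤ ∑ x ∈ Ioc (c - p) c, al s x

/-- RED.  Reduction to `T`.  Let `k` be the colour whose class is `(c, d]`, `D = min n (max d (2c))`.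
Recolour `(d, D]` by `k` if `d < 2c` (no new monochromatic triple: two members `> c` have a sum
`> 2c`).  Now the class of `k` is `(c, D]`, `2 c ≤ D ≤ n`.  Let `s x = [χ x = a]` for one of the two
other colours `a`, `r v = [χ (D + v) = a]`.  The ordered monochromatic pairs of colour `k` are
`(c + x, c + y)` with `x, y ≥ 1`, `x + y ≤ D - 2c`: `(D-2c)(D-2c-1)/2` pairs; the pairs in
`[1, c]` with sum in `[1, c]`, and the pairs `(x, D + v)`, `(D + v, x)`, `x ≤ c`, with sum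
`D + (v + x) ≤ n` are the others counted; all are different; and the number of ordered
monochromatic pairs is at most `2 * schurMono` (see `F_le` in Pool/Agent/Helper35/LO/FIN.lean). -/
def G_RED : Prop := ∀ (n c d : ℕ) (χ : ℕ → Fin 3) (k : Fin 3),
  (∀ x ∈ Icc 1 n, (χ x = k ↔ c < x ∧ x ≤ d)) → 2 * c ≤ n →
  ∃ s r : ℕ → Bool,
    ((min n (max d (2 * c)) - 2 * c : ℕ) : ℝ) * ((min n (max d (2 * c)) - 2 * c : ℕ) - 1)
      + 2 * T c (n - min n (max d (2 * c))) s r ≤ 4 * schurMono χ n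

/-- RED0.  If the class is contained in `(c, n]`: `[1, min c n]` is coloured by two colours. -/
def G_RED0 : Prop := ∀ (n c d : ℕ) (χ : ℕ → Fin 3) (k : Fin 3),
  (∀ x ∈ Icc 1 n, (χ x = k ↔ c < x ∧ x ≤ d)) →
  ∃ s r : ℕ → Bool, 2 * (T (min c n) 0 s r : ℝ) ≤ 4 * schurMono χ n

/-- The linear data of a critical point, without the time and crossing constraints.  See DATA. -/
noncomputable def mkV (c u p : ℕ) (E : ℝ) (s r : ℕ → ℝ) : V where
  c := c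
  u := u
  p := p
  E := E
  m := - S s c
  i := - S r u
  g0n := max (- g1 c u s r 0) 0
  g0p := max (g1 c u s r 0) 0
  gpn := max (- g1 c u s r (c - p)) 0
  gpp := max (g1 c u s r (c - p)) 0
  w0n := max (- (S s u + S r u)) 0
  w0p := max (S s u + S r u) 0
  wmn := max (- (2 * S s (u / 2) + S r u)) 0
  wmp := max (2 * S s (u / 2) + S r u) 0
  n1o := ∑ x ∈ Icc 1 p, al s x * al s (c + 1 - x)
  n1i := (∑ x ∈ Ioc p (c - p), al s x * al s (c + 1 - x)) / 2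
  n2 := ∑ v ∈ Icc 1 u, al s v * al r v
  A1 := ∑ x ∈ Icc 1 p, al s x
  Ap := ∑ x ∈ Ioc (c - p) c, al s x
  A := ∑ x ∈ Icc 1 (c - p), al s x
  au := ∑ x ∈ Icc 1 u, al s x
  a2 := ∑ x ∈ Icc 1 (u / 2), al s x
  x1 := ∑ v ∈ Icc 1 (u / 2), al s v * al r v

/-- DZ.  The relations `Z` and `D`.  Proof.  `|max (-t) 0 - (Hub t - t)/2| ≤ lam/4` (HUB).
TELG on `(c-p, c]`, where `r = 0` (`c - p ≥ u`): `(Hub - id)/2` at `g1 c = S s c` minus the value at
`g1 (c-p)` is, up to `5 c / (2 lam)`, `(1/2) ∑ (s x + 1) s (c+1-x) = ∑ al s x (2 al s (c+1-x) - 1)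
= 2 n1o - Ap` (reindex `x ↦ c+1-x`); and `S s c ≤ 0`.  TELG on `(0, c-p]`: the difference is
`∑ al s x (s (c+1-x) + 2 r x) = 2 ∑_{x ≤ c-p} al s x al s (c+1-x) - A + 2 ∑_{x ≤ u} al s x r x`, the
first sum is `n1o + 2 n1i` and `r x = 2 al r x - 1` for `x ≤ u`. -/
def G_DZ : Prop := G_HUB → G_TELG → ∀ (c u : ℕ) (lam : ℝ) (s r : ℕ → ℝ), Crit1 c u lam s r →
  ∀ p : ℕ, p + u ≤ c → 2 * p ≤ c → ∀ v : V, v = mkV c u p 0 s r →
    |v.m - v.gpn - (2 * v.n1o - v.Ap)| ≤ 10 * (lam + c / lam) ∧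
    |v.gpn - v.g0n - (2 * v.n1o + 4 * v.n1i - v.A + 4 * v.n2 - 2 * v.au)| ≤ 10 * (lam + c / lam)

/-- DW.  The relation `W`.  Proof.  `|max (-t) 0 - (Hub t - t)/2| ≤ lam/4`.  Let `h = u / 2`.
`w1 1` is within `1` of `S s u + S r u`, `w1 (h+1)` is within `1` of `2 S s h + S r u` (both cases
`u = 2h`, `u = 2h + 1`).  TELW with `a = 1`, `b = h + 1`: the difference of `(Hub - id)/2` is, up to
`2 c / lam`, `- ∑_{v ≤ h} al r v s v + ∑_{v ≤ h} al r (u-v) s (u-v)`, where `al r (u-v)` may be used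
instead of `al r v` for the linear part (they differ by at most `1/lam`: `r v = r (u+1-v)` and
`|r (v+1) - r v| ≤ 2/lam`).  With `s = 2 al s - 1`: `- 2 x1 + ∑_{v ≤ h} al r v + 2 ∑_{v=u-h}^{u-1}
al s v al r v - ∑_{v=u-h}^{u-1} al r v`; the window `[u-h, u-1]` differs from `(h, u]` in at most 3
places, and `∑_{v ≤ h} al r v = ∑_{v=u+1-h}^{u} al r v`.  Total error at most
`lam/2 + 2 + 4 c / lam + 10 ≤ 20 (lam + c/lam)`. -/
def G_DW : Prop := G_HUB → G_TELW → ∀ (c u : ℕ) (lam : ℝ) (s r : ℕ → ℝ), Crit1 c u lam s r →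
  1 ≤ u → ∀ v : V, v = mkV c u 0 0 s r →
    |v.wmn - v.w0n - (2 * (v.n2 - v.x1) - 2 * v.x1)| ≤ 20 * (lam + c / lam)

/-- DT.  The time and crossing constraints.  Proof.  TIME for `a = g1`, `y = al s`, slope 3
(`al s x = 1` iff `s x = 1`, true where `g1 x ≤ - lam`), on `Icc 1 (c-p)` and on `Icc 1 (u/2)`
(if it is empty the statement is trivial; `g1 1` and `g1 0` differ by at most 3; drop the second
`max` in the last case).  TIME for `a = w1`, `y = al r`, slope 2, on `Icc 1 (u/2 + 1)`: `w1 1` is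
within 1 of `S s u + S r u`, `w1 (u/2 + 1)` is within 1 of `2 S s (u/2) + S r u`; by the symmetry
`r (u+1-v) = r v` the sum over `Icc 1 u` is at least twice the sum over `Icc 1 (u/2 + 1)` minus 2
(and if all `al r v = 1` on `Icc 1 (u/2+1)` then on `Icc 1 u`); `∑_{v ≤ u} al r v = (u + S r u)/2`.
The same for `-w1`, `1 - al r`.  CROSS. -/
def G_DT : Prop := G_HUB → G_TIME → G_CROSS → ∀ (c u : ℕ) (lam : ℝ) (s r : ℕ → ℝ),
  Crit1 c u lam s r → 1 ≤ u → ∀ p : ℕ, p + u ≤ c → 2 * p ≤ c → ∀ v : V,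
  v = mkV c u p (20 * (lam + c / lam)) s r →
    (v.w0n + v.wmn ≤ (v.u - v.i) / 2 + v.E ∨ v.u ≤ (v.u - v.i) / 2 + v.E) ∧
    (v.w0p + v.wmp ≤ (v.u + v.i) / 2 + v.E ∨ v.u ≤ (v.u + v.i) / 2 + v.E) ∧
    (v.g0n + v.gpn ≤ 3 * v.A + v.E ∨ v.c - v.p ≤ v.A + v.E) ∧
    (v.g0n ≤ 3 * v.a2 + v.E ∨ v.u / 2 ≤ v.a2 + v.E) ∧
    (v.m ≤ v.n1o + v.E ∨ v.p ≤ v.Ap + v.E)

/-- DATA.  All the relations.  Proof.  `Z, D, W` and the last five are DZ, DW, DT (note that only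
the field `p` and the fields depending on `p` differ between the `mkV` in DW and here).
`e1 … e4` : `g1 0 = 2 S s c + 2 S r u`, `g1 (c-p) = S s c + S s p` (since `S r (c-p) = S r u`),
`max t 0 - max (-t) 0 = t`, `∑_{x ≤ k} al s x = (k + S s k)/2`; `e4` has an error `≤ 1` from
`u / 2`.  `dg0 …`: one of `max t 0`, `max (-t) 0` is `0`.  The others: `0 ≤ al ≤ 1`
(`|s x| ≤ 1`, `|r x| ≤ 1` by HUB), hence `0 ≤ (1 - a)(1 - b)` and `a b ≤ a, b`; reflection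
`x ↦ c + 1 - x` of sums over `Icc 1 p`, `Ioc p (c-p)`; for `x1r, y1, x2r, y2`:
`∑_{v ≤ u/2} al r v` and `∑_{u/2 < v ≤ u} al r v` are within 1 of `(u + S r u)/4` (symmetry of `r`).
`lam ≥ 1`, so `E ≥ 20`. -/
def G_DATA : Prop := G_HUB → G_DZ → G_DW → G_DT → G_TELG → G_TELW → G_TIME → G_CROSS →
  ∀ (c u : ℕ) (lam : ℝ) (s r : ℕ → ℝ), Crit1 c u lam s r →
    1 ≤ u → ∀ p : ℕ, p + u ≤ c → 2 * p ≤ c → Data (mkV c u p (20 * (lam + c / lam)) s r)

/-- TWO: the critical points for `u = 2 c`, written with `a v = r v`, `b v = r (2c+1-v)`. -/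
def g2 (c : ℕ) (s a b : ℕ → ℝ) (x : ℕ) : ℝ :=
  S s c + S s (c - x) + 2 * (S a c + S b c) - S a x - S b x
def w2 (c : ℕ) (s a b : ℕ → ℝ) (v : ℕ) : ℝ :=
  S s c + S s (v - 1) + S a c + S b c - S b (c - v)

structure Crit2 (c : ℕ) (lam : ℝ) (s a b : ℕ → ℝ) : Prop where
  lam1 : 1 ≤ lam
  s0 : ∀ x, x ∉ Icc 1 c → s x = 0
  a0 : ∀ x, x ∉ Icc 1 c → a x = 0
  b0 : ∀ x, x ∉ Icc 1 c → b x = 0
  hs : ∀ x ∈ Icc 1 c, s x = - Phi lam (g2 c s a b x)
  ha : ∀ x ∈ Icc 1 c, a x = - Phi lam (w2 c s a b x)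
  hb : ∀ x ∈ Icc 1 c, b x = - Phi lam (w2 c s b a x)
  neg : S s c + S a c + S b c ≤ 0

/-- CR2.  Proof.  `a v = r v`, `b v = r (2c+1-v)` for `v ∈ Icc 1 c`, `0` otherwise.  For `v ≤ c`:
`w v = S s (2c - v) + S s (v-1) + S r (v + c) - S r 0`, `S s (2c-v) = S s c`,
`S r (v+c) = S a c + S b c - S b (c - v)`.  For `v = 2c + 1 - v'`: `w v = S s (v'-1) + S s (2c - v')
+ S r (2c) - S r (c - v')`, i.e. `w2 c s b a v'`.  `g x`: `S r (2c - x) = S a c + S b c - S b x`,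
`S r (2c) = S a c + S b c`, `S r x = S a x`.  Euler identity `Q = ∑ s g + ∑ r w` as in CR1.
Sign: if `S s c + S a c + S b c > 0`, replace `s, a, b` by their negatives. -/
def G_CR2 : Prop := ∀ (c : ℕ) (lam : ℝ) (s r : ℕ → ℝ), 1 ≤ lam → Crit c (2 * c) lam s r →
  ∃ s' a b : ℕ → ℝ, Crit2 c lam s' a b ∧
    Q c (2 * c) s r = ∑ x ∈ Icc 1 c, s' x * g2 c s' a b x + ∑ x ∈ Icc 1 c, a x * w2 c s' a b x
      + ∑ x ∈ Icc 1 c, b x * w2 c s' b a x

/-- POH2.  Proof.  `g2 x - g2 (x-1) = - s (c+1-x) - a x - b x`, `w2 c s a b (v+1) - w2 c s a b v =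
s v + b (c - v)` for `1 ≤ v < c`.  With `H = Hub lam` and HUB as in TELG/TELW:
`H(g x) - H(g (x-1)) = s x (s (c+1-x) + a x + b x) - θ`, `0 ≤ θ ≤ 9/(2 lam)`;
`H(w (v+1)) - H(w v) = - a v (s v + b (c-v)) + θ`, `0 ≤ θ ≤ 2/lam`, and the same for
`w' = w2 c s b a` with `a, b` exchanged.
(i) Abel summation as in POH: `- (∑ s g + ∑ a w + ∑ b w') ≤ ∑ H(g) + ∑ H(w) + ∑ H(w') + 3 c lam/2`,
`∑ H(g x) ≤ c H(g c) - ((c-1)/2) ∑ s x s (c+1-x) - ∑ (x-1) s x (a x + b x) + 5c²/lam`,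
`∑ H(w v) ≤ c H(w c) + ∑_{v<c} v a v (s v + b (c-v))`, the same for `w'`; the sums with
`x s x (a x + b x)` cancel up to `2 c`, and `∑_{v<c} v (a v b (c-v) + b v a (c-v)) = c X`,
`X = ∑_{v<c} a v b (c-v)`.
(ii) Sums without weights: `H(g c) - H(g 0) = ∑ s x s (c+1-x) + Y - θ`, `Y = ∑ s x (a x + b x)`;
`H(w c) - H(w 1) + H(w' c) - H(w' 1) = - 2 X - Y + θ'` (up to the term `v = c` of `Y`, at most 2).
Eliminating: `-((c)/2) ∑ s s' + c X ≤ (c/2) (H(g 0) - H(g c)) + (c/2) (H(w 1) + H(w' 1) - H(w c) -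
H(w' c)) + errors`.
(iii) Values: `g c = A`, `g 0 = 2 A` with `A = S s c + S a c + S b c`; `w c, w' c` are within 1 of
`2 S s c + S a c + S b c = 2 B`, `w 1` within 1 of `S s c + S a c`, `w' 1` within 1 of
`S s c + S b c`; `|t| - lam/2 ≤ H(t) ≤ |t|`.
Total: `c |A| + 4 c |B| + (c/2) |A| - 2 c |B| + (c/2) (|S s c + S a c| + |S s c + S b c|)`. -/
def G_POH2 : Prop := G_HUB → ∀ (c : ℕ) (lam : ℝ) (s a b : ℕ → ℝ), Crit2 c lam s a b → 1 ≤ c →
  - (3 / 2 * c * |S s c + S a c + S b c|) - c * |2 * S s c + S a c + S b c|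
      - c / 2 * (|S s c + S a c| + |S s c + S b c|) - 40 * ((c : ℝ) ^ 2 / lam + c * lam)
    ≤ ∑ x ∈ Icc 1 c, s x * g2 c s a b x + ∑ x ∈ Icc 1 c, a x * w2 c s a b x
      + ∑ x ∈ Icc 1 c, b x * w2 c s b a x

/-- CL2.  Proof.  Let `μ = S s c`, `α = S a c`, `β = S b c`, `A = μ + α + β ≤ 0`, `b1 = μ + α`,
`b2 = μ + β`, `2 B = b1 + b2`.  TIME for `w2 c s a b` on `Icc 1 c` with `y = (1 + a)/2`, slope 2:
`max (-b1) 0 + max (-2B) 0 - 2 lam - 2 ≤ c + α` or `α = c`; the same for `b, β, b2`.  `|μ| ≤ c`.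
Claim: `3/4 |A| + |B| + (|b1| + |b2|)/4 ≤ 3/4 c + 10 lam` by linear arithmetic in the cases of signs
of `b1, b2, B` (if `b1, b2 ≥ 0` the left side is `3/4 μ`; etc.). -/
def G_CL2 : Prop := G_HUB → G_TIME → ∀ (c : ℕ) (lam : ℝ) (s a b : ℕ → ℝ), Crit2 c lam s a b →
  1 ≤ c →
  3 / 2 * |S s c + S a c + S b c| + |2 * S s c + S a c + S b c|
      + 1 / 2 * (|S s c + S a c| + |S s c + S b c|) ≤ 3 / 2 * c + 40 * lam

end Pool.Agent.Helper55.SCH
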