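import Pool.Agent.Helper55.SCH.Defs

set_option autoImplicit false

/-!
# Project SCH: the finite-dimensional inequalities (generated; every leaf is a linear certificate)
-/

namespace Pool.Agent.Helper55.SCH

theorem seg0 (v : V) (h : Data v) (hp1 : v.c / 2 ≤ v.p + v.E)
    (h1 : (43/100) * v.c ≤ v.u) (h2 : v.u ≤ (1/2) * v.c) :
    ((4 - (43/100) * (1/2)) * v.c + (4 + (43/100) + (1/2)) * v.u - 65 * 100000 * v.E ≤
      65 * (v.n1o + v.n1i + (43/100) * (v.n2 - v.w0p / 2))) ∨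
      (v.g0p = 0 ∧ v.m ≤ v.n1o + v.E ∧ v.w0p = 0 ∧ v.wmn = 0) := by
  rcases v with ⟨c, u, p, E, m, i, g0n, g0p, gpn, gpp, w0n, w0p, wmn, wmp, n1o, n1i, n2, A1, Ap, A,
    au, a2, x1⟩
  obtain ⟨hE, hc, hu, huc, hpu, hp2, hp, hm, hg0n, hg0p, hgpn, hgpp, hw0n, hw0p, hwmn, hwmp, e1, e2,
    e3, e4, hsg, hsp, hsw, hsm, Z, tot, D, W, iu, ui, n1o0, n1oA1, n1oAp, nb1o, App, A1p, A10, Ap0,
    n1i0, n1iA, nb1i, A1A, AA1, auA, Aau, au0, x10, x1a, x1r, y1, x20, x2a, x2r, y2, a20, a2u, b20,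
    b2u, hrt, hrb, hgt, hT0, hcr⟩ := h
  simp only at *
  obtain ⟨e1a, e1b⟩ := abs_le.1 e1
  obtain ⟨e2a, e2b⟩ := abs_le.1 e2
  obtain ⟨e3a, e3b⟩ := abs_le.1 e3
  obtain ⟨e4a, e4b⟩ := abs_le.1 e4
  obtain ⟨Za, Zb⟩ := abs_le.1 Z
  obtain ⟨tota, totb⟩ := abs_le.1 tot
  obtain ⟨Da, Db⟩ := abs_le.1 D
  obtain ⟨Wa, Wb⟩ := abs_le.1 W
  clear e1 e2 e3 e4 Z tot D W
  have n2p : w0p / 2 ≤ n2 + 5 * E := by
    rcases hsw with hsw | hsw
    · linarith
    · linarith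
  rcases hsg with hsg | hsg
  · rcases hrb with hrb | hrb
    · rcases hsw with hsw | hsw
      · rcases hsp with hsp | hsp
        · exact Or.inl (by linarith)
        · exact Or.inl (by linarith)
      · exact Or.inl (by linarith)
    · exact Or.inl (by linarith)
  · rcases hcr with hcr | hcr
    · rcases hrt with hrt | hrt
      · rcases hsw with hsw | hsw
        · exact Or.inl (by linarith)
        · rcases hsm with hsm | hsm
          · exact Or.inr ⟨hsg, hcr, hsw, hsm⟩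
          · rcases hT0 with hT0 | hT0
            · rcases hsp with hsp | hsp
              · exact Or.inl (by linarith)
              · exact Or.inl (by linarith)
            · exact Or.inl (by linarith)
      · exact Or.inl (by linarith)
    · rcases hrt with hrt | hrt
      · exact Or.inl (by linarith)
      · exact Or.inl (by linarith)

theorem seg1 (v : V) (h : Data v) (hp1 : v.p = v.c - v.u)
    (h1 : (1/2) * v.c ≤ v.u) (h2 : v.u ≤ (3/5) * v.c) :
    ((4 - (1/2) * (3/5)) * v.c + (4 + (1/2) + (3/5)) * v.u - 65 * 100000 * v.E ≤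
      65 * (v.n1o + v.n1i + (1/2) * (v.n2 - v.w0p / 2))) ∨
      (v.g0p = 0 ∧ v.m ≤ v.n1o + v.E ∧ v.w0p = 0 ∧ v.wmn = 0) := by
  rcases v with ⟨c, u, p, E, m, i, g0n, g0p, gpn, gpp, w0n, w0p, wmn, wmp, n1o, n1i, n2, A1, Ap, A,
    au, a2, x1⟩
  obtain ⟨hE, hc, hu, huc, hpu, hp2, hp, hm, hg0n, hg0p, hgpn, hgpp, hw0n, hw0p, hwmn, hwmp, e1, e2,
    e3, e4, hsg, hsp, hsw, hsm, Z, tot, D, W, iu, ui, n1o0, n1oA1, n1oAp, nb1o, App, A1p, A10, Ap0,
    n1i0, n1iA, nb1i, A1A, AA1, auA, Aau, au0, x10, x1a, x1r, y1, x20, x2a, x2r, y2, a20, a2u, b20,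
    b2u, hrt, hrb, hgt, hT0, hcr⟩ := h
  simp only at *
  obtain ⟨e1a, e1b⟩ := abs_le.1 e1
  obtain ⟨e2a, e2b⟩ := abs_le.1 e2
  obtain ⟨e3a, e3b⟩ := abs_le.1 e3
  obtain ⟨e4a, e4b⟩ := abs_le.1 e4
  obtain ⟨Za, Zb⟩ := abs_le.1 Z
  obtain ⟨tota, totb⟩ := abs_le.1 tot
  obtain ⟨Da, Db⟩ := abs_le.1 D
  obtain ⟨Wa, Wb⟩ := abs_le.1 W
  clear e1 e2 e3 e4 Z tot D W
  have n2p : w0p / 2 ≤ n2 + 5 * E := by
    rcases hsw with hsw | hsw
    · linarith
    · linarith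
  rcases hsg with hsg | hsg
  · rcases hrb with hrb | hrb
    · rcases hsw with hsw | hsw
      · rcases hsp with hsp | hsp
        · exact Or.inl (by linarith)
        · exact Or.inl (by linarith)
      · exact Or.inl (by linarith)
    · exact Or.inl (by linarith)
  · rcases hcr with hcr | hcr
    · rcases hrt with hrt | hrt
      · rcases hsw with hsw | hsw
        · exact Or.inl (by linarith)
        · rcases hsm with hsm | hsm
          · exact Or.inr ⟨hsg, hcr, hsw, hsm⟩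
          · rcases hT0 with hT0 | hT0
            · rcases hsp with hsp | hsp
              · exact Or.inl (by linarith)
              · exact Or.inl (by linarith)
            · exact Or.inl (by linarith)
      · exact Or.inl (by linarith)
    · rcases hrt with hrt | hrt
      · exact Or.inl (by linarith)
      · exact Or.inl (by linarith)

theorem seg2 (v : V) (h : Data v) (hp1 : v.p = v.c - v.u)
    (h1 : (3/5) * v.c ≤ v.u) (h2 : v.u ≤ (69/100) * v.c) :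
    (4 - (3/5) * (69/100)) * v.c + (4 + (3/5) + (69/100)) * v.u - 65 * 100000 * v.E ≤
      65 * (v.n1o + v.n1i + (3/5) * (v.n2 - v.w0p / 2)) := by
  rcases v with ⟨c, u, p, E, m, i, g0n, g0p, gpn, gpp, w0n, w0p, wmn, wmp, n1o, n1i, n2, A1, Ap, A,
    au, a2, x1⟩
  obtain ⟨hE, hc, hu, huc, hpu, hp2, hp, hm, hg0n, hg0p, hgpn, hgpp, hw0n, hw0p, hwmn, hwmp, e1, e2,
    e3, e4, hsg, hsp, hsw, hsm, Z, tot, D, W, iu, ui, n1o0, n1oA1, n1oAp, nb1o, App, A1p, A10, Ap0,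
    n1i0, n1iA, nb1i, A1A, AA1, auA, Aau, au0, x10, x1a, x1r, y1, x20, x2a, x2r, y2, a20, a2u, b20,
    b2u, hrt, hrb, hgt, hT0, hcr⟩ := h
  simp only at *
  obtain ⟨e1a, e1b⟩ := abs_le.1 e1
  obtain ⟨e2a, e2b⟩ := abs_le.1 e2
  obtain ⟨e3a, e3b⟩ := abs_le.1 e3
  obtain ⟨e4a, e4b⟩ := abs_le.1 e4
  obtain ⟨Za, Zb⟩ := abs_le.1 Z
  obtain ⟨tota, totb⟩ := abs_le.1 tot
  obtain ⟨Da, Db⟩ := abs_le.1 D
  obtain ⟨Wa, Wb⟩ := abs_le.1 W
  clear e1 e2 e3 e4 Z tot D W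
  have n2p : w0p / 2 ≤ n2 + 5 * E := by
    rcases hsw with hsw | hsw
    · linarith
    · linarith
  rcases hsg with hsg | hsg
  · rcases hrb with hrb | hrb
    · rcases hsw with hsw | hsw
      · linarith
      · linarith
    · linarith
  · rcases hcr with hcr | hcr
    · rcases hrt with hrt | hrt
      · rcases hsw with hsw | hsw
        · linarith
        · linarith
      · linarith
    · rcases hrt with hrt | hrt
      · linarith
      · linarith

theorem seg3 (v : V) (h : Data v) (hp1 : v.p = v.c - v.u)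
    (h1 : (69/100) * v.c ≤ v.u) (h2 : v.u ≤ (77/100) * v.c) :
    (4 - (69/100) * (77/100)) * v.c + (4 + (69/100) + (77/100)) * v.u - 65 * 100000 * v.E ≤
      65 * (v.n1o + v.n1i + (69/100) * (v.n2 - v.w0p / 2)) := by
  rcases v with ⟨c, u, p, E, m, i, g0n, g0p, gpn, gpp, w0n, w0p, wmn, wmp, n1o, n1i, n2, A1, Ap, A,
    au, a2, x1⟩
  obtain ⟨hE, hc, hu, huc, hpu, hp2, hp, hm, hg0n, hg0p, hgpn, hgpp, hw0n, hw0p, hwmn, hwmp, e1, e2,
    e3, e4, hsg, hsp, hsw, hsm, Z, tot, D, W, iu, ui, n1o0, n1oA1, n1oAp, nb1o, App, A1p, A10, Ap0,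
    n1i0, n1iA, nb1i, A1A, AA1, auA, Aau, au0, x10, x1a, x1r, y1, x20, x2a, x2r, y2, a20, a2u, b20,
    b2u, hrt, hrb, hgt, hT0, hcr⟩ := h
  simp only at *
  obtain ⟨e1a, e1b⟩ := abs_le.1 e1
  obtain ⟨e2a, e2b⟩ := abs_le.1 e2
  obtain ⟨e3a, e3b⟩ := abs_le.1 e3
  obtain ⟨e4a, e4b⟩ := abs_le.1 e4
  obtain ⟨Za, Zb⟩ := abs_le.1 Z
  obtain ⟨tota, totb⟩ := abs_le.1 tot
  obtain ⟨Da, Db⟩ := abs_le.1 D
  obtain ⟨Wa, Wb⟩ := abs_le.1 W
  clear e1 e2 e3 e4 Z tot D W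
  have n2p : w0p / 2 ≤ n2 + 5 * E := by
    rcases hsw with hsw | hsw
    · linarith
    · linarith
  rcases hsg with hsg | hsg
  · rcases hrb with hrb | hrb
    · rcases hsw with hsw | hsw
      · linarith
      · linarith
    · linarith
  · rcases hcr with hcr | hcr
    · rcases hrt with hrt | hrt
      · rcases hsw with hsw | hsw
        · linarith
        · linarith
      · linarith
    · rcases hrt with hrt | hrt
      · rcases hsw with hsw | hsw
        · linarith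
        · rcases hgt with hgt | hgt
          · linarith
          · linarith
      · linarith

theorem seg4 (v : V) (h : Data v) (hp1 : v.p = v.c - v.u)
    (h1 : (77/100) * v.c ≤ v.u) (h2 : v.u ≤ (17/20) * v.c) :
    (4 - (77/100) * (17/20)) * v.c + (4 + (77/100) + (17/20)) * v.u - 65 * 100000 * v.E ≤
      65 * (v.n1o + v.n1i + (77/100) * (v.n2 - v.w0p / 2)) := by
  rcases v with ⟨c, u, p, E, m, i, g0n, g0p, gpn, gpp, w0n, w0p, wmn, wmp, n1o, n1i, n2, A1, Ap, A,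
    au, a2, x1⟩
  obtain ⟨hE, hc, hu, huc, hpu, hp2, hp, hm, hg0n, hg0p, hgpn, hgpp, hw0n, hw0p, hwmn, hwmp, e1, e2,
    e3, e4, hsg, hsp, hsw, hsm, Z, tot, D, W, iu, ui, n1o0, n1oA1, n1oAp, nb1o, App, A1p, A10, Ap0,
    n1i0, n1iA, nb1i, A1A, AA1, auA, Aau, au0, x10, x1a, x1r, y1, x20, x2a, x2r, y2, a20, a2u, b20,
    b2u, hrt, hrb, hgt, hT0, hcr⟩ := h
  simp only at *
  obtain ⟨e1a, e1b⟩ := abs_le.1 e1
  obtain ⟨e2a, e2b⟩ := abs_le.1 e2
  obtain ⟨e3a, e3b⟩ := abs_le.1 e3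
  obtain ⟨e4a, e4b⟩ := abs_le.1 e4
  obtain ⟨Za, Zb⟩ := abs_le.1 Z
  obtain ⟨tota, totb⟩ := abs_le.1 tot
  obtain ⟨Da, Db⟩ := abs_le.1 D
  obtain ⟨Wa, Wb⟩ := abs_le.1 W
  clear e1 e2 e3 e4 Z tot D W
  have n2p : w0p / 2 ≤ n2 + 5 * E := by
    rcases hsw with hsw | hsw
    · linarith
    · linarith
  rcases hsg with hsg | hsg
  · rcases hrb with hrb | hrb
    · rcases hsw with hsw | hsw
      · linarith
      · linarith
    · linarith
  · rcases hcr with hcr | hcr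
    · rcases hrt with hrt | hrt
      · rcases hsw with hsw | hsw
        · linarith
        · linarith
      · linarith
    · rcases hrt with hrt | hrt
      · rcases hsw with hsw | hsw
        · linarith
        · rcases hgt with hgt | hgt
          · linarith
          · linarith
      · linarith

theorem seg5 (v : V) (h : Data v) (hp1 : v.p = v.c - v.u)
    (h1 : (17/20) * v.c ≤ v.u) (h2 : v.u ≤ (9/10) * v.c) :
    (4 - (17/20) * (9/10)) * v.c + (4 + (17/20) + (9/10)) * v.u - 65 * 100000 * v.E ≤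
      65 * (v.n1o + v.n1i + (17/20) * (v.n2 - v.w0p / 2)) := by
  rcases v with ⟨c, u, p, E, m, i, g0n, g0p, gpn, gpp, w0n, w0p, wmn, wmp, n1o, n1i, n2, A1, Ap, A,
    au, a2, x1⟩
  obtain ⟨hE, hc, hu, huc, hpu, hp2, hp, hm, hg0n, hg0p, hgpn, hgpp, hw0n, hw0p, hwmn, hwmp, e1, e2,
    e3, e4, hsg, hsp, hsw, hsm, Z, tot, D, W, iu, ui, n1o0, n1oA1, n1oAp, nb1o, App, A1p, A10, Ap0,
    n1i0, n1iA, nb1i, A1A, AA1, auA, Aau, au0, x10, x1a, x1r, y1, x20, x2a, x2r, y2, a20, a2u, b20,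
    b2u, hrt, hrb, hgt, hT0, hcr⟩ := h
  simp only at *
  obtain ⟨e1a, e1b⟩ := abs_le.1 e1
  obtain ⟨e2a, e2b⟩ := abs_le.1 e2
  obtain ⟨e3a, e3b⟩ := abs_le.1 e3
  obtain ⟨e4a, e4b⟩ := abs_le.1 e4
  obtain ⟨Za, Zb⟩ := abs_le.1 Z
  obtain ⟨tota, totb⟩ := abs_le.1 tot
  obtain ⟨Da, Db⟩ := abs_le.1 D
  obtain ⟨Wa, Wb⟩ := abs_le.1 W
  clear e1 e2 e3 e4 Z tot D W
  have n2p : w0p / 2 ≤ n2 + 5 * E := by
    rcases hsw with hsw | hsw
    · linarith
    · linarith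
  rcases hsg with hsg | hsg
  · rcases hrb with hrb | hrb
    · rcases hsw with hsw | hsw
      · linarith
      · linarith
    · linarith
  · rcases hcr with hcr | hcr
    · rcases hrt with hrt | hrt
      · rcases hsw with hsw | hsw
        · linarith
        · linarith
      · linarith
    · rcases hrt with hrt | hrt
      · rcases hsw with hsw | hsw
        · linarith
        · rcases hgt with hgt | hgt
          · linarith
          · linarith
      · linarith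

theorem seg6 (v : V) (h : Data v) (hp1 : v.p = v.c - v.u)
    (h1 : (9/10) * v.c ≤ v.u) (h2 : v.u ≤ (19/20) * v.c) :
    (4 - (9/10) * (19/20)) * v.c + (4 + (9/10) + (19/20)) * v.u - 65 * 100000 * v.E ≤
      65 * (v.n1o + v.n1i + (9/10) * (v.n2 - v.w0p / 2)) := by
  rcases v with ⟨c, u, p, E, m, i, g0n, g0p, gpn, gpp, w0n, w0p, wmn, wmp, n1o, n1i, n2, A1, Ap, A,
    au, a2, x1⟩
  obtain ⟨hE, hc, hu, huc, hpu, hp2, hp, hm, hg0n, hg0p, hgpn, hgpp, hw0n, hw0p, hwmn, hwmp, e1, e2,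
    e3, e4, hsg, hsp, hsw, hsm, Z, tot, D, W, iu, ui, n1o0, n1oA1, n1oAp, nb1o, App, A1p, A10, Ap0,
    n1i0, n1iA, nb1i, A1A, AA1, auA, Aau, au0, x10, x1a, x1r, y1, x20, x2a, x2r, y2, a20, a2u, b20,
    b2u, hrt, hrb, hgt, hT0, hcr⟩ := h
  simp only at *
  obtain ⟨e1a, e1b⟩ := abs_le.1 e1
  obtain ⟨e2a, e2b⟩ := abs_le.1 e2
  obtain ⟨e3a, e3b⟩ := abs_le.1 e3
  obtain ⟨e4a, e4b⟩ := abs_le.1 e4
  obtain ⟨Za, Zb⟩ := abs_le.1 Z
  obtain ⟨tota, totb⟩ := abs_le.1 tot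
  obtain ⟨Da, Db⟩ := abs_le.1 D
  obtain ⟨Wa, Wb⟩ := abs_le.1 W
  clear e1 e2 e3 e4 Z tot D W
  have n2p : w0p / 2 ≤ n2 + 5 * E := by
    rcases hsw with hsw | hsw
    · linarith
    · linarith
  rcases hsg with hsg | hsg
  · rcases hrb with hrb | hrb
    · rcases hsw with hsw | hsw
      · linarith
      · linarith
    · linarith
  · rcases hcr with hcr | hcr
    · rcases hrt with hrt | hrt
      · rcases hsw with hsw | hsw
        · linarith
        · linarith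
      · linarith
    · rcases hrt with hrt | hrt
      · rcases hsw with hsw | hsw
        · linarith
        · rcases hgt with hgt | hgt
          · linarith
          · linarith
      · linarith

end Pool.Agent.Helper55.SCH
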