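import Pool.Agent.Helper55.SCH.Lp1

set_option autoImplicit false

/-!
# Project SCH: the finite-dimensional inequalities, conclusion
-/

namespace Pool.Agent.Helper55.SCH

/-- the case `u = c` -/
theorem lpx_eq (v : V) (h : Data v) (hp1 : v.p = v.c - v.u) (h1 : v.u = v.c) :
    (149 / 1000) * v.c - 100000 * v.E ≤ v.n1o + v.n1i + (v.n2 - v.w0p / 2) := by
  rcases v with ⟨c, u, p, E, m, i, g0n, g0p, gpn, gpp, w0n, w0p, wmn, wmp, n1o, n1i, n2, A1, Ap, A,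
    au, a2, x1⟩
  obtain ⟨hE, hc, hu, huc, hpu, hp2, hp, hm, hg0n, hg0p, hgpn, hgpp, hw0n, hw0p, hwmn, hwmp, e1, e2,
    e3, e4, hsg, hsp, hsw, hsm, Z, tot, D, W, iu, ui, n1o0, n1oA1, n1oAp, nb1o, App, A1p, A10, Ap0,
    n1i0, n1iA, nb1i, A1A, AA1, auA, Aau, au0, x10, x1a, x1r, y1, x20, x2a, x2r, y2, a20, a2u, b20,
    b2u, hrt, hrb, hgt, hT0, hcr⟩ := h
  simp only at *
  obtain ⟨e1a, e1b⟩ := abs_le.1 e1
  obtain ⟨e2a, e2b⟩ := abs_le.1 e2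
  obtain ⟨e3a, e3b⟩ := abs_le.1 e3
  obtain ⟨e4a, e4b⟩ := abs_le.1 e4
  obtain ⟨Za, Zb⟩ := abs_le.1 Z
  obtain ⟨tota, totb⟩ := abs_le.1 tot
  obtain ⟨Da, Db⟩ := abs_le.1 D
  obtain ⟨Wa, Wb⟩ := abs_le.1 W
  clear e1 e2 e3 e4 Z tot D W
  have n2p : w0p / 2 ≤ n2 + 5 * E := by
    rcases hsw with hsw | hsw
    · linarith
    · linarith
  rcases hsg with hsg | hsg
  · rcases hrt with hrt | hrt
    · rcases hrb with hrb | hrb
      · rcases hsw with hsw | hsw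
        · linarith
        · linarith
      · linarith
    · rcases hrb with hrb | hrb
      · linarith
      · linarith
  · rcases hrt with hrt | hrt
    · rcases hrb with hrb | hrb
      · rcases hsw with hsw | hsw
        · linarith
        · rcases hgt with hgt | hgt
          · rcases hT0 with hT0 | hT0
            · rcases hsm with hsm | hsm
              · linarith
              · linarith
            · linarith
          · linarith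
      · linarith
    · linarith

/-- the case of tiny `u` -/
theorem lpx_small (v : V) (h : Data v) (hp1 : v.c / 2 ≤ v.p + v.E) (h1 : v.u ≤ v.E) :
    (1 / 11) * v.c - 100000 * v.E ≤ v.n1o + v.n1i := by
  rcases v with ⟨c, u, p, E, m, i, g0n, g0p, gpn, gpp, w0n, w0p, wmn, wmp, n1o, n1i, n2, A1, Ap, A,
    au, a2, x1⟩
  obtain ⟨hE, hc, hu, huc, hpu, hp2, hp, hm, hg0n, hg0p, hgpn, hgpp, hw0n, hw0p, hwmn, hwmp, e1, e2,
    e3, e4, hsg, hsp, hsw, hsm, Z, tot, D, W, iu, ui, n1o0, n1oA1, n1oAp, nb1o, App, A1p, A10, Ap0,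
    n1i0, n1iA, nb1i, A1A, AA1, auA, Aau, au0, x10, x1a, x1r, y1, x20, x2a, x2r, y2, a20, a2u, b20,
    b2u, hrt, hrb, hgt, hT0, hcr⟩ := h
  simp only at *
  obtain ⟨e1a, e1b⟩ := abs_le.1 e1
  obtain ⟨e2a, e2b⟩ := abs_le.1 e2
  obtain ⟨e3a, e3b⟩ := abs_le.1 e3
  obtain ⟨e4a, e4b⟩ := abs_le.1 e4
  obtain ⟨Za, Zb⟩ := abs_le.1 Z
  obtain ⟨tota, totb⟩ := abs_le.1 tot
  obtain ⟨Da, Db⟩ := abs_le.1 D
  obtain ⟨Wa, Wb⟩ := abs_le.1 W
  clear e1 e2 e3 e4 Z tot D W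
  have n2p : w0p / 2 ≤ n2 + 5 * E := by
    rcases hsw with hsw | hsw
    · linarith
    · linarith
  rcases hcr with hcr | hcr
  · rcases hsg with hsg | hsg
    · linarith
    · linarith
  · rcases hsp with hsp | hsp
    · rcases hsg with hsg | hsg
      · linarith
      · linarith
    · rcases hsg with hsg | hsg
      · linarith
      · linarith

/-- the main case -/
theorem main_case (v : V) (h : Data v) (h1 : v.g0p = 0) (h2 : v.m ≤ v.n1o + v.E)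
    (h3 : v.w0p = 0) (h4 : v.wmn = 0) :
    v.c ≤ 11 * v.n1o + 8 * v.n1i + 4 * v.n2 + 100 * v.E ∧
    2 * v.u - v.c / 2 ≤ 8 * v.n2 + 4 * v.n1i + 5 / 2 * v.n1o + 100 * v.E := by
  rcases v with ⟨c, u, p, E, m, i, g0n, g0p, gpn, gpp, w0n, w0p, wmn, wmp, n1o, n1i, n2, A1, Ap, A,
    au, a2, x1⟩
  obtain ⟨hE, hc, hu, huc, hpu, hp2, hp, hm, hg0n, hg0p, hgpn, hgpp, hw0n, hw0p, hwmn, hwmp, e1, e2,
    e3, e4, hsg, hsp, hsw, hsm, Z, tot, D, W, iu, ui, n1o0, n1oA1, n1oAp, nb1o, App, A1p, A10, Ap0,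
    n1i0, n1iA, nb1i, A1A, AA1, auA, Aau, au0, x10, x1a, x1r, y1, x20, x2a, x2r, y2, a20, a2u, b20,
    b2u, hrt, hrb, hgt, hT0, hcr⟩ := h
  simp only at *
  obtain ⟨e1a, e1b⟩ := abs_le.1 e1
  obtain ⟨e2a, e2b⟩ := abs_le.1 e2
  obtain ⟨e3a, e3b⟩ := abs_le.1 e3
  obtain ⟨e4a, e4b⟩ := abs_le.1 e4
  obtain ⟨Za, Zb⟩ := abs_le.1 Z
  obtain ⟨tota, totb⟩ := abs_le.1 tot
  obtain ⟨Da, Db⟩ := abs_le.1 D
  obtain ⟨Wa, Wb⟩ := abs_le.1 W
  clear e1 e2 e3 e4 Z tot D W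
  have n2p : w0p / 2 ≤ n2 + 5 * E := by
    rcases hsw with hsw | hsw
    · linarith
    · linarith
  constructor
  · linarith
  · linarith

theorem fin_main (v : V) (h : Data v) (h1 : v.g0p = 0) (h2 : v.m ≤ v.n1o + v.E)
    (h3 : v.w0p = 0) (h4 : v.wmn = 0) (hu1 : 4 * v.c ≤ 11 * v.u) :
    (2 * v.c + v.u) ^ 2 / 65 - 1000000 * (v.c * v.E) ≤
      v.c * (v.n1o + v.n1i) + v.u * (v.n2 - v.w0p / 2) := by
  obtain ⟨hI, hII⟩ := main_case v h h1 h2 h3 h4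
  have hE := h.hE
  have hc := h.hc
  have hu := h.hu
  have huc := h.huc
  have hi := h.n1i0
  rw [h3]
  have a1 : 0 ≤ 16 * v.c - 5 * v.u := by linarith
  have a2 : 0 ≤ 11 * v.u - 4 * v.c := by linarith
  have b1 := mul_nonneg a1 (sub_nonneg.2 hI)
  have b2 := mul_nonneg a2 (sub_nonneg.2 hII)
  have a3 : 0 ≤ 5 * v.c - 4 * v.u := by linarith
  have b3 := mul_nonneg a3 (by linarith : (0:ℝ) ≤ v.n1i + v.E)
  have b4 := mul_nonneg hc hE
  have b5 := mul_nonneg hu hE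
  have b6 := mul_nonneg (sub_nonneg.2 huc) hE
  have b7 := sq_nonneg (v.c - 2 * v.u)
  nlinarith

theorem comb (c u a b E t1 t2 : ℝ) (hc : 0 ≤ c) (hE : 0 ≤ E) (huc : u ≤ c) (ht1 : 0 ≤ t1)
    (h1 : t1 * c ≤ u) (h2 : u ≤ t2 * c) (hb : -(5 * E) ≤ b)
    (h : (4 - t1 * t2) * c + (4 + t1 + t2) * u - 65 * 100000 * E ≤ 65 * (a + t1 * b)) :
    (2 * c + u) ^ 2 / 65 - 1000000 * (c * E) ≤ c * a + u * b := by
  have e1 := mul_nonneg hc (sub_nonneg.2 h)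
  have e2 := mul_nonneg (sub_nonneg.2 h1) (sub_nonneg.2 hb)
  have e3 := mul_nonneg (sub_nonneg.2 h1) (sub_nonneg.2 h2)
  have e4 := mul_nonneg hc hE
  have e5 := mul_nonneg (sub_nonneg.2 huc) hE
  have e6 := mul_nonneg (mul_nonneg ht1 hc) hE
  nlinarith

theorem n2p0 (v : V) (h : Data v) : -(5 * v.E) ≤ v.n2 - v.w0p / 2 := by
  rcases v with ⟨c, u, p, E, m, i, g0n, g0p, gpn, gpp, w0n, w0p, wmn, wmp, n1o, n1i, n2, A1, Ap, A,
    au, a2, x1⟩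
  obtain ⟨hE, hc, hu, huc, hpu, hp2, hp, hm, hg0n, hg0p, hgpn, hgpp, hw0n, hw0p, hwmn, hwmp, e1, e2,
    e3, e4, hsg, hsp, hsw, hsm, Z, tot, D, W, iu, ui, n1o0, n1oA1, n1oAp, nb1o, App, A1p, A10, Ap0,
    n1i0, n1iA, nb1i, A1A, AA1, auA, Aau, au0, x10, x1a, x1r, y1, x20, x2a, x2r, y2, a20, a2u, b20,
    b2u, hrt, hrb, hgt, hT0, hcr⟩ := h
  simp only at *
  obtain ⟨e1a, e1b⟩ := abs_le.1 e1
  obtain ⟨e2a, e2b⟩ := abs_le.1 e2
  obtain ⟨e3a, e3b⟩ := abs_le.1 e3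
  obtain ⟨e4a, e4b⟩ := abs_le.1 e4
  obtain ⟨Za, Zb⟩ := abs_le.1 Z
  obtain ⟨tota, totb⟩ := abs_le.1 tot
  obtain ⟨Da, Db⟩ := abs_le.1 D
  obtain ⟨Wa, Wb⟩ := abs_le.1 W
  clear e1 e2 e3 e4 Z tot D W
  have n2p : w0p / 2 ≤ n2 + 5 * E := by
    rcases hsw with hsw | hsw
    · linarith
    · linarith
  linarith

/-- the finite-dimensional inequality -/
theorem lpx (v : V) (h : Data v) (hp1 : v.u ≤ 1 / 2 * v.c → v.c / 2 ≤ v.p + v.E)
    (hp2 : 1 / 2 * v.c ≤ v.u → v.p = v.c - v.u)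
    (h1 : (43 / 100) * v.c ≤ v.u) (h2 : v.u ≤ (95 / 100) * v.c) :
    (2 * v.c + v.u) ^ 2 / 65 - 1000000 * (v.c * v.E) ≤
      v.c * (v.n1o + v.n1i) + v.u * (v.n2 - v.w0p / 2) := by
  have hc := h.hc
  have hE := h.hE
  have huc := h.huc
  have hb := n2p0 v h
  rcases le_total v.u (1 / 2 * v.c) with q | q
  · rcases seg0 v h (hp1 q) h1 q with k | k
    · exact comb _ _ _ _ _ _ _ hc hE huc (by norm_num) h1 q hb k
    · exact fin_main v h k.1 k.2.1 k.2.2.1 k.2.2.2 (by linarith)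
  have hp := hp2 q
  rcases le_total v.u (3 / 5 * v.c) with q1 | q1
  · rcases seg1 v h hp q q1 with k | k
    · exact comb _ _ _ _ _ _ _ hc hE huc (by norm_num) q q1 hb k
    · exact fin_main v h k.1 k.2.1 k.2.2.1 k.2.2.2 (by linarith)
  rcases le_total v.u (69 / 100 * v.c) with q2 | q2
  · exact comb _ _ _ _ _ _ _ hc hE huc (by norm_num) q1 q2 hb (seg2 v h hp q1 q2)
  rcases le_total v.u (77 / 100 * v.c) with q3 | q3
  · exact comb _ _ _ _ _ _ _ hc hE huc (by norm_num) q2 q3 hb (seg3 v h hp q2 q3)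
  rcases le_total v.u (17 / 20 * v.c) with q4 | q4
  · exact comb _ _ _ _ _ _ _ hc hE huc (by norm_num) q3 q4 hb (seg4 v h hp q3 q4)
  rcases le_total v.u (9 / 10 * v.c) with q5 | q5
  · exact comb _ _ _ _ _ _ _ hc hE huc (by norm_num) q4 q5 hb (seg5 v h hp q4 q5)
  · exact comb _ _ _ _ _ _ _ hc hE huc (by norm_num) q5 (by linarith) hb
      (seg6 v h hp q5 (by linarith))

end Pool.Agent.Helper55.SCH
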