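import Pool.Agent.Helper55.SCH.Goals
import Pool.Agent.Helper55.SCH.Lp2

set_option autoImplicit false

/-!
# Project SCH: assembly
-/

namespace Pool.Agent.Helper55.SCH

open Finset Pool.Agent.Helper33.Schur

lemma sum_reflect (c a b : ℕ) (hab : a ≤ b) (hbc : b ≤ c) (f : ℕ → ℝ) :
    ∑ x ∈ Ioc a b, f (c + 1 - x) = ∑ x ∈ Ioc (c - b) (c - a), f x := by
  refine Finset.sum_nbij' (fun x => c + 1 - x) (fun x => c + 1 - x) ?_ ?_ ?_ ?_ ?_
  · intro x hx
    simp only [mem_Ioc] at hx ⊢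
    omega
  · intro x hx
    simp only [mem_Ioc] at hx ⊢
    omega
  · intro x hx
    simp only [mem_Ioc] at hx
    omega
  · intro x hx
    simp only [mem_Ioc] at hx
    omega
  · intro x hx
    rfl

lemma Icc_eq_Ioc (a : ℕ) : Icc 1 a = Ioc 0 a := by
  ext x; simp only [mem_Icc, mem_Ioc]; omega

/-- the representation sum -/
lemma hss (c p : ℕ) (s : ℕ → ℝ) (h2p : 2 * p ≤ c) :
    ∑ x ∈ Icc 1 c, s x * s (c + 1 - x) =
      8 * (∑ x ∈ Icc 1 p, al s x * al s (c + 1 - x)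
        + (∑ x ∈ Ioc p (c - p), al s x * al s (c + 1 - x)) / 2) - c + 2 * (- S s c) := by
  have h1 : ∑ x ∈ Icc 1 c, al s x * al s (c + 1 - x) =
      (c + 2 * S s c + ∑ x ∈ Icc 1 c, s x * s (c + 1 - x)) / 4 := by
    have e1 : ∀ x ∈ Icc 1 c, al s x * al s (c + 1 - x) =
        (1 / 4) * 1 + (1 / 4) * s x + (1 / 4) * s (c + 1 - x) + (1 / 4) * (s x * s (c + 1 - x)) := by
      intro x _
      unfold al
      ring
    rw [sum_congr rfl e1, sum_add_distrib, sum_add_distrib, sum_add_distrib, ← mul_sum, ← mul_sum,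
      ← mul_sum, ← mul_sum]
    have e2 : ∑ x ∈ Icc 1 c, s (c + 1 - x) = S s c := by
      rw [Icc_eq_Ioc, sum_reflect c 0 c (Nat.zero_le _) le_rfl]
      simp only [Nat.sub_self, Nat.sub_zero]
      rw [← Icc_eq_Ioc]
      rfl
    rw [e2]
    have e3 : ∑ x ∈ Icc 1 c, (1 : ℝ) = c := by
      simp
    rw [e3]
    unfold S
    ring
  have h2 : ∑ x ∈ Icc 1 c, al s x * al s (c + 1 - x) =
      ∑ x ∈ Icc 1 p, al s x * al s (c + 1 - x) + ∑ x ∈ Ioc p (c - p), al s x * al s (c + 1 - x)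
        + ∑ x ∈ Icc 1 p, al s x * al s (c + 1 - x) := by
    have e1 : ∑ x ∈ Ioc (c - p) c, al s x * al s (c + 1 - x) =
        ∑ x ∈ Icc 1 p, al s x * al s (c + 1 - x) := by
      have e2 : ∀ x ∈ Ioc (c - p) c, al s x * al s (c + 1 - x) =
          (fun y => al s (c + 1 - y) * al s y) (c + 1 - x) := by
        intro x hx
        simp only [mem_Ioc] at hx
        have : c + 1 - (c + 1 - x) = x := by omega
        simp only [this]
      have e3 : c - c = 0 := by omega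
      have e4 : c - (c - p) = p := by omega
      have e5 := sum_reflect c (c - p) c (Nat.sub_le _ _) le_rfl
        (fun y => al s (c + 1 - y) * al s y)
      rw [e3, e4] at e5
      rw [sum_congr rfl e2, e5, Icc_eq_Ioc]
      exact sum_congr rfl (fun x _ => by ring)
    have e6 := sum_Ioc_consecutive (fun x => al s x * al s (c + 1 - x)) (Nat.zero_le p)
      (by omega : p ≤ c - p)
    have e7 := sum_Ioc_consecutive (fun x => al s x * al s (c + 1 - x)) (Nat.zero_le (c - p))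
      (Nat.sub_le c p)
    rw [Icc_eq_Ioc] at e1 ⊢
    rw [Icc_eq_Ioc]
    linarith
  have h3 := h1.symm.trans h2
  linarith

lemma hrs (u : ℕ) (s r : ℕ → ℝ) :
    ∑ v ∈ Icc 1 u, r v * s v =
      4 * (∑ v ∈ Icc 1 u, al s v * al r v) - u - S s u - S r u := by
  have e1 : ∀ v ∈ Icc 1 u, al s v * al r v =
      (1 / 4) * 1 + (1 / 4) * s v + (1 / 4) * r v + (1 / 4) * (r v * s v) := by
    intro x _
    unfold al
    ring
  rw [sum_congr rfl e1, sum_add_distrib, sum_add_distrib, sum_add_distrib, ← mul_sum, ← mul_sum,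
    ← mul_sum, ← mul_sum]
  have e3 : ∑ x ∈ Icc 1 u, (1 : ℝ) = u := by
    simp
  rw [e3]
  unfold S
  ring

lemma abs_le_one_sg (N : ℕ) (s : ℕ → Bool) (x : ℕ) : |sg N s x| ≤ 1 := by
  unfold sg
  split_ifs <;> simp

lemma sg_zero (N : ℕ) (s : ℕ → Bool) (x : ℕ) (h : x ∉ Icc 1 N) : sg N s x = 0 := by
  unfold sg
  rw [if_neg h]

lemma abs_s_le (hH : G_HUB) {c u : ℕ} {lam : ℝ} {s r : ℕ → ℝ} (h : Crit1 c u lam s r) (x : ℕ) :
    |s x| ≤ 1 := by
  by_cases hx : x ∈ Icc 1 c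
  · rw [h.hs x hx, abs_neg]
    exact (hH lam (by linarith [h.lam1])).1 _
  · rw [h.s0 x hx]
    simp

lemma S_succ (s : ℕ → ℝ) (k : ℕ) : S s (k + 1) = S s k + s (k + 1) := by
  unfold S
  rw [sum_Icc_succ_top (by omega)]

lemma w1u (hH : G_HUB) {c u : ℕ} {lam : ℝ} {s r : ℕ → ℝ} (h : Crit1 c u lam s r) (hu : 1 ≤ u) :
    |w1 u s r u| ≤ |S s u + S r u| + 1 := by
  obtain ⟨k, rfl⟩ : ∃ k, u = k + 1 := ⟨u - 1, by omega⟩
  have h1 := abs_s_le hH h (k + 1)
  have h2 : w1 (k + 1) s r (k + 1) = (S s (k + 1) + S r (k + 1)) - s (k + 1) := by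
    have h4 := S_succ s k
    unfold w1
    have : k + 1 - (k + 1) = 0 := by omega
    rw [this, show k + 1 - 1 = k by omega]
    have h0 : S s 0 = 0 := by
      unfold S
      simp
    rw [h0]
    linarith
  rw [h2]
  have h3 := abs_sub (S s (k + 1) + S r (k + 1)) (s (k + 1))
  linarith

/-- the bound for `u ≤ c` in terms of the linear data -/
theorem bound1 (hH : G_HUB) (hMIN : G_MIN) (hCOUNT : G_COUNT) (hNPC : G_NPC) (hCR1 : G_CR1)
    (hPOH : G_POH)
    (hDATA : ∀ (c u : ℕ) (lam : ℝ) (s r : ℕ → ℝ), Crit1 c u lam s r →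
      1 ≤ u → ∀ p : ℕ, p + u ≤ c → 2 * p ≤ c → Data (mkV c u p (20 * (lam + c / lam)) s r))
    (c u p : ℕ) (hu : 1 ≤ u) (huc : u ≤ c) (hpu : p + u ≤ c) (h2p : 2 * p ≤ c)
    (s r : ℕ → Bool) :
    ∃ v : V, Data v ∧ v.c = c ∧ v.u = u ∧ v.p = p ∧ v.E = 40 * Real.sqrt c ∧
      2 * (c * (v.n1o + v.n1i) + u * (v.n2 - v.w0p / 2)) - 100 * (c * Real.sqrt c)
        ≤ 2 * (T c u s r : ℝ) := by
  set lam := Real.sqrt c with hlam
  have hc1 : (1 : ℝ) ≤ c := by exact_mod_cast (by omega : 1 ≤ c)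
  have hu1 : (1 : ℝ) ≤ u := by exact_mod_cast hu
  have huc' : (u : ℝ) ≤ c := by exact_mod_cast huc
  have hlam1 : 1 ≤ lam := by
    rw [hlam]
    exact Real.one_le_sqrt.2 hc1
  have hlamsq : lam * lam = c := Real.mul_self_sqrt (by linarith)
  have hlam0 : 0 < lam := by linarith
  have hcl : (c : ℝ) / lam = lam := by
    field_simp
    linarith
  have hcl2 : (c : ℝ) ^ 2 / lam = c * lam := by
    rw [pow_two, mul_div_assoc, hcl]
  obtain ⟨s1, r1, hcrit, hmin⟩ := hMIN c u lam hlam0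
  obtain ⟨s2, r2, hcr, hQ⟩ := hCR1 c u lam s1 r1 huc hlam1 hcrit
  have hmin' := hmin (sg c s) (sg u r) (abs_le_one_sg c s) (abs_le_one_sg u r)
    (sg_zero c s) (sg_zero u r)
  have hcount := hCOUNT c u s r
  have hnp := hNPC.1 c u huc
  have hpoh := hPOH c u lam s2 r2 hcr hu
  have hdata := hDATA c u lam s2 r2 hcr hu p hpu h2p
  have e1 := hss c p s2 h2p
  have e2 := hrs u s2 r2
  have e3 := w1u hH hcr hu
  have e4 : |S s2 c| = - S s2 c := abs_of_nonpos hcr.neg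
  refine ⟨_, hdata, rfl, rfl, rfl, ?_, ?_⟩
  · show 20 * (lam + c / lam) = 40 * lam
    rw [hcl]
    ring
  · show 2 * (c * ((mkV c u p (20 * (lam + c / lam)) s2 r2).n1o
        + (mkV c u p (20 * (lam + c / lam)) s2 r2).n1i)
        + u * ((mkV c u p (20 * (lam + c / lam)) s2 r2).n2
          - (mkV c u p (20 * (lam + c / lam)) s2 r2).w0p / 2)) - 100 * (c * lam) ≤ _
    simp only [mkV]
    rw [hcl2] at hpoh
    rw [e1, e2, e4] at hpoh
    set n1 := ∑ x ∈ Icc 1 p, al s2 x * al s2 (c + 1 - x)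
        + (∑ x ∈ Ioc p (c - p), al s2 x * al s2 (c + 1 - x)) / 2 with hn1
    set n2 := ∑ v ∈ Icc 1 u, al s2 v * al r2 v with hn2
    set m := S s2 c with hm
    set w0 := S s2 u + S r2 u with hw0
    have e5 : |w0| = 2 * max w0 0 - w0 := by
      rcases le_total 0 w0 with h | h
      · rw [abs_of_nonneg h, max_eq_left h]
        ring
      · rw [abs_of_nonpos h, max_eq_right h]
        ring
    have e6 : S s2 u = w0 - S r2 u := by rw [hw0]; ring
    rw [e5] at e3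
    have e7 : (u : ℝ) * |w1 u s2 r2 u| ≤ u * (2 * max w0 0 - w0 + 1) :=
      mul_le_mul_of_nonneg_left e3 (by linarith)
    rw [hcount, hnp]
    rw [hQ] at hmin'
    have e8 : (u : ℝ) ≤ c * lam := by nlinarith
    have e9 : (c : ℝ) ≤ c * lam := by nlinarith
    have e10 : (u : ℝ) * lam ≤ c * lam := by nlinarith
    rw [e6] at hpoh
    nlinarith

/-- conclusion of `bound1`, as a hypothesis for the next lemmas -/
def B1 : Prop := ∀ c u p : ℕ, 1 ≤ u → u ≤ c → p + u ≤ c → 2 * p ≤ c → ∀ s r : ℕ → Bool,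
    ∃ v : V, Data v ∧ v.c = c ∧ v.u = u ∧ v.p = p ∧ v.E = 40 * Real.sqrt c ∧
      2 * (c * (v.n1o + v.n1i) + u * (v.n2 - v.w0p / 2)) - 100 * (c * Real.sqrt c)
        ≤ 2 * (T c u s r : ℝ)

theorem main_seg (hB : B1) (c u : ℕ) (s r : ℕ → Bool) (h1 : 43 * c ≤ 100 * u)
    (h2 : 20 * u ≤ 19 * c) :
    2 / 65 * (2 * (c : ℝ) + u) ^ 2 - 100000000 * (c * Real.sqrt c) ≤ 2 * (T c u s r : ℝ) := by
  rcases Nat.eq_zero_or_pos c with hc | hc
  · have hu : u = 0 := by omega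
    subst hc
    subst hu
    simp
  have hu : 1 ≤ u := by omega
  have hc1 : (1 : ℝ) ≤ c := by exact_mod_cast hc
  have hs1 : 1 ≤ Real.sqrt c := Real.one_le_sqrt.2 hc1
  have h1' : (43 : ℝ) * c ≤ 100 * u := by exact_mod_cast h1
  have h2' : (20 : ℝ) * u ≤ 19 * c := by exact_mod_cast h2
  rcases Nat.lt_or_ge c (2 * u) with q | q
  · obtain ⟨v, hD, e1, e2, e3, e4, e5⟩ := hB c u (c - u) hu (by omega) (by omega) (by omega) s r
    have q' : (c : ℝ) < 2 * u := by exact_mod_cast q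
    have ep : ((c - u : ℕ) : ℝ) = c - u := by
      rw [Nat.cast_sub (by omega)]
    have k := lpx v hD (fun h => by rw [e1, e2] at h; linarith)
      (fun _ => by rw [e1, e2, e3, ep]) (by rw [e1, e2]; linarith) (by rw [e1, e2]; linarith)
    rw [e1, e2, e4] at k
    nlinarith
  · obtain ⟨v, hD, e1, e2, e3, e4, e5⟩ := hB c u (c / 2) hu (by omega) (by omega) (by omega) s r
    have q' : 2 * (u : ℝ) ≤ c := by exact_mod_cast q
    have ep : (c : ℝ) ≤ 2 * ((c / 2 : ℕ) : ℝ) + 1 := by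
      exact_mod_cast (by omega : c ≤ 2 * (c / 2) + 1)
    have ep2 : (2 * ((c / 2 : ℕ) : ℝ)) ≤ c := by
      exact_mod_cast (by omega : 2 * (c / 2) ≤ c)
    have k := lpx v hD (fun h => by rw [e1, e3, e4]; linarith)
      (fun h => by
        rw [e1, e2] at h
        rw [e1, e2, e3]
        have e : c = 2 * u := by
          have : (c : ℝ) = 2 * u := by linarith
          exact_mod_cast this
        subst e
        have e' : 2 * u / 2 = u := by omega
        rw [e']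
        push_cast
        ring) (by rw [e1, e2]; linarith) (by rw [e1, e2]; linarith)
    rw [e1, e2, e4] at k
    nlinarith

theorem main_small (hB : B1) (c : ℕ) (s r : ℕ → Bool) (hc : 1 ≤ c) :
    2 / 11 * (c : ℝ) ^ 2 - 100000000 * (c * Real.sqrt c) ≤ 2 * (T c 1 s r : ℝ) := by
  have hc1 : (1 : ℝ) ≤ c := by exact_mod_cast hc
  have hs1 : 1 ≤ Real.sqrt c := Real.one_le_sqrt.2 hc1
  obtain ⟨v, hD, e1, e2, e3, e4, e5⟩ := hB c 1 (c / 2) le_rfl hc (by omega) (by omega) s r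
  have ep : (c : ℝ) ≤ 2 * ((c / 2 : ℕ) : ℝ) + 1 := by
    exact_mod_cast (by omega : c ≤ 2 * (c / 2) + 1)
  have k := lpx_small v hD (by rw [e1, e3, e4]; linarith)
    (by rw [e2, e4]; push_cast; linarith)
  have k2 := n2p0 v hD
  rw [e1, e4] at k
  rw [e4] at k2
  push_cast at e5
  have k3 := mul_le_mul_of_nonneg_left k (by linarith : (0:ℝ) ≤ c)
  have k4 : Real.sqrt c ≤ c * Real.sqrt c := by nlinarith
  nlinarith

theorem main_eq (hB : B1) (c : ℕ) (s r : ℕ → Bool) :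
    298 / 1000 * (c : ℝ) ^ 2 - 100000000 * (c * Real.sqrt c) ≤ 2 * (T c c s r : ℝ) := by
  rcases Nat.eq_zero_or_pos c with hc | hc
  · subst hc
    simp
  have hc1 : (1 : ℝ) ≤ c := by exact_mod_cast hc
  have hs1 : 1 ≤ Real.sqrt c := Real.one_le_sqrt.2 hc1
  obtain ⟨v, hD, e1, e2, e3, e4, e5⟩ := hB c c 0 hc le_rfl (by omega) (by omega) s r
  have k := lpx_eq v hD (by rw [e1, e2, e3]; simp) (by rw [e1, e2])
  rw [e1, e4] at k
  have k3 := mul_le_mul_of_nonneg_left k (by linarith : (0:ℝ) ≤ c)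
  nlinarith

theorem main_two (hH : G_HUB) (hTIME : G_TIME) (hMIN : G_MIN) (hCOUNT : G_COUNT) (hNPC : G_NPC)
    (hCR2 : G_CR2) (hPOH2 : G_POH2) (hCL2 : G_CL2) (c : ℕ) (s r : ℕ → Bool) :
    (c : ℝ) ^ 2 - 100000000 * (c * Real.sqrt c) ≤ 2 * (T c (2 * c) s r : ℝ) := by
  rcases Nat.eq_zero_or_pos c with hc | hc
  · subst hc
    simp
  set lam := Real.sqrt c with hlam
  have hc1 : (1 : ℝ) ≤ c := by exact_mod_cast hc
  have hlam1 : 1 ≤ lam := by
    rw [hlam]
    exact Real.one_le_sqrt.2 hc1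
  have hlamsq : lam * lam = c := Real.mul_self_sqrt (by linarith)
  have hlam0 : 0 < lam := by linarith
  have hcl : (c : ℝ) / lam = lam := by
    field_simp
    linarith
  have hcl2 : (c : ℝ) ^ 2 / lam = c * lam := by
    rw [pow_two, mul_div_assoc, hcl]
  obtain ⟨s1, r1, hcrit, hmin⟩ := hMIN c (2 * c) lam hlam0
  obtain ⟨s2, a, b, hcr, hQ⟩ := hCR2 c lam s1 r1 hlam1 hcrit
  have hmin' := hmin (sg c s) (sg (2 * c) r) (abs_le_one_sg c s) (abs_le_one_sg (2 * c) r)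
    (sg_zero c s) (sg_zero (2 * c) r)
  have hcount := hCOUNT c (2 * c) s r
  have hnp := hNPC.2 c
  have hpoh := hPOH2 hH c lam s2 a b hcr hc
  have hcl2' := hCL2 hH hTIME c lam s2 a b hcr hc
  rw [hcl2] at hpoh
  rw [hcount, hnp]
  rw [hQ] at hmin'
  have k := mul_le_mul_of_nonneg_left hcl2' (by linarith : (0:ℝ) ≤ c)
  push_cast at hmin' ⊢
  have e9 : (c : ℝ) ≤ c * lam := by nlinarith
  nlinarith

lemma T_mono (c u c' u' : ℕ) (s r : ℕ → Bool) (h1 : c' ≤ c) (h2 : u' ≤ u) :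
    T c' u' s r ≤ T c u s r := by
  unfold T
  refine Nat.add_le_add (card_le_card ?_) (Nat.mul_le_mul_left 2 (card_le_card ?_))
  · intro q hq
    simp only [mem_filter, mem_product, mem_Icc] at hq ⊢
    refine ⟨by omega, by omega, hq.2.2.1, hq.2.2.2⟩
  · intro q hq
    simp only [mem_filter, mem_product, mem_Icc] at hq ⊢
    refine ⟨by omega, by omega, hq.2.2.1, hq.2.2.2⟩

lemma T_one (c u : ℕ) (s r : ℕ → Bool) : T c 1 s r ≤ T c u s r := by
  unfold T
  refine Nat.add_le_add le_rfl (Nat.mul_le_mul_left 2 (card_le_card ?_))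
  intro q hq
  simp only [mem_filter, mem_product, mem_Icc] at hq
  omega

/-- `(a y + e)² ≤ (67/2) (κ y² + e²)` if `a² ≤ (65/2) κ` -/
lemma quad (a κ y e n : ℝ) (_ : 0 ≤ a) (_ : 0 ≤ y) (_ : 0 ≤ e) (hn0 : 0 ≤ n)
    (hn : n ≤ a * y + e) (h : a ^ 2 ≤ 65 / 2 * κ) : 2 / 67 * n ^ 2 ≤ κ * y ^ 2 + e ^ 2 := by
  have h1 : n ^ 2 ≤ (a * y + e) ^ 2 := by
    have h0 : 0 ≤ a * y + e := le_trans hn0 hn
    nlinarith
  have h2 := sq_nonneg (65 / 2 * e - a * y)
  have h3 := mul_nonneg (sub_nonneg.2 h) (sq_nonneg y)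
  nlinarith

/-- the numbers -/
theorem numbers (hS : ∀ (c : ℕ) (s r : ℕ → Bool), 1 ≤ c →
      2 / 11 * (c : ℝ) ^ 2 - 100000000 * (c * Real.sqrt c) ≤ 2 * (T c 1 s r : ℝ))
    (hM : ∀ (c u : ℕ) (s r : ℕ → Bool), 43 * c ≤ 100 * u → 20 * u ≤ 19 * c →
      2 / 65 * (2 * (c : ℝ) + u) ^ 2 - 100000000 * (c * Real.sqrt c) ≤ 2 * (T c u s r : ℝ))
    (hE : ∀ (c : ℕ) (s r : ℕ → Bool),
      298 / 1000 * (c : ℝ) ^ 2 - 100000000 * (c * Real.sqrt c) ≤ 2 * (T c c s r : ℝ))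
    (hW : ∀ (c : ℕ) (s r : ℕ → Bool),
      (c : ℝ) ^ 2 - 100000000 * (c * Real.sqrt c) ≤ 2 * (T c (2 * c) s r : ℝ))
    (n c e u : ℕ) (s r : ℕ → Bool) (hn : n = 2 * c + e + u) (hc : 1 ≤ c)
    (hcn : 2 * n ^ 2 ≤ 67 * c ^ 2) :
    2 / 67 * (n : ℝ) ^ 2 - 200000000 * (n * Real.sqrt n) ≤
      (e : ℝ) * (e - 1) + 2 * T c u s r := by
  have hn' : (n : ℝ) = 2 * c + e + u := by exact_mod_cast hn
  have hn1 : (1 : ℝ) ≤ n := by exact_mod_cast (by omega : 1 ≤ n)
  have hs1 : 1 ≤ Real.sqrt n := Real.one_le_sqrt.2 hn1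
  have hc0 : (0 : ℝ) ≤ c := Nat.cast_nonneg c
  have he0 : (0 : ℝ) ≤ e := Nat.cast_nonneg e
  have hu0 : (0 : ℝ) ≤ u := Nat.cast_nonneg u
  have hN : (n : ℝ) ≤ n * Real.sqrt n := by nlinarith
  have herr : ∀ b : ℕ, b ≤ n → (b : ℝ) * Real.sqrt b ≤ n * Real.sqrt n := by
    intro b hb
    have hb' : (b : ℝ) ≤ n := by exact_mod_cast hb
    exact mul_le_mul hb' (Real.sqrt_le_sqrt hb') (Real.sqrt_nonneg _) (Nat.cast_nonneg n)
  -- a lower bound for `2 T`
  rcases Nat.lt_or_ge (100 * u) (43 * c) with q1 | q1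
  · have k1 := hS c s r hc
    have k2 : (T c 1 s r : ℝ) ≤ T c u s r := by exact_mod_cast T_one c u s r
    have k3 := herr c (by omega)
    have q1' : (100 : ℝ) * u ≤ 43 * c := by exact_mod_cast q1.le
    have k4 := quad (243 / 100) (2 / 11) c e n (by norm_num) hc0 he0 (by linarith)
      (by linarith) (by norm_num)
    nlinarith
  rcases Nat.lt_or_ge (19 * c) (20 * u) with q2 | q2
  swap
  · have k1 := hM c u s r q1 q2
    have k3 := herr c (by omega)
    have k4 := quad 1 (2 / 65) (2 * c + u) e n (by norm_num) (by linarith) he0 (by linarith)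
      (by linarith) (by norm_num)
    nlinarith
  have q2' : (19 : ℝ) * c ≤ 20 * u := by exact_mod_cast q2.le
  rcases Nat.lt_or_ge (1085 * c) (1000 * u) with q3 | q3
  swap
  · have q3' : (1000 : ℝ) * u ≤ 1085 * c := by exact_mod_cast q3
    rcases le_total u c with q4 | q4
    · have q4' : (u : ℝ) ≤ c := by exact_mod_cast q4
      have k1 := hE u s r
      have k2 : (T u u s r : ℝ) ≤ T c u s r := by exact_mod_cast T_mono c u u u s r q4 le_rfl
      have k3 := herr u (by omega)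
      have k4 := quad (59 / 19) (298 / 1000) u e n (by norm_num) hu0 he0 (by linarith)
        (by linarith) (by norm_num)
      nlinarith
    · have q4' : (c : ℝ) ≤ u := by exact_mod_cast q4
      have k1 := hE c s r
      have k2 : (T c c s r : ℝ) ≤ T c u s r := by exact_mod_cast T_mono c u c c s r le_rfl q4
      have k3 := herr c (by omega)
      have k4 := quad (3085 / 1000) (298 / 1000) c e n (by norm_num) hc0 he0 (by linarith)
        (by linarith) (by norm_num)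
      nlinarith
  have q3' : (1085 : ℝ) * c ≤ 1000 * u := by exact_mod_cast q3.le
  rcases Nat.lt_or_ge (2 * c) u with q4 | q4
  · have k1 := hW c s r
    have k2 : (T c (2 * c) s r : ℝ) ≤ T c u s r := by
      exact_mod_cast T_mono c u c (2 * c) s r le_rfl q4.le
    have k3 := herr c (by omega)
    have k4 : 2 * (n : ℝ) ^ 2 ≤ 67 * (c : ℝ) ^ 2 := by exact_mod_cast hcn
    nlinarith
  · set b := u / 2 with hb
    have k1 := hW b s r
    have k2 : (T b (2 * b) s r : ℝ) ≤ T c u s r := by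
      exact_mod_cast T_mono c u b (2 * b) s r (by omega) (by omega)
    have k3 := herr b (by omega)
    have k5 : (u : ℝ) ≤ 2 * b + 1 := by exact_mod_cast (by omega : u ≤ 2 * b + 1)
    have k4 := quad (2844 / 1000) (1 / 4) u e n (by norm_num) hu0 he0 (by linarith)
      (by linarith) (by norm_num)
    have k6 : (0 : ℝ) ≤ b := Nat.cast_nonneg b
    have k7 : (u : ℝ) ^ 2 / 4 - u / 2 ≤ (b : ℝ) ^ 2 := by
      have hu1 : (1 : ℝ) ≤ u := by exact_mod_cast (by omega : 1 ≤ u)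
      nlinarith
    nlinarith

theorem final (hB : B1)
    (hW : ∀ (c : ℕ) (s r : ℕ → Bool),
      (c : ℝ) ^ 2 - 100000000 * (c * Real.sqrt c) ≤ 2 * (T c (2 * c) s r : ℝ))
    (hRED : G_RED) (hRED0 : G_RED0) :
    ∃ K : ℝ, ∀ (n c d : ℕ) (χ : ℕ → Fin 3) (k : Fin 3),
      (∀ x ∈ Icc 1 n, (χ x = k ↔ c < x ∧ x ≤ d)) → 2 * n ^ 2 ≤ 67 * c ^ 2 →
      (n : ℝ) ^ 2 / 134 - K * (n * Real.sqrt n) ≤ schurMono χ n := by
  refine ⟨200000000, ?_⟩
  intro n c d χ k hk hcn
  rcases Nat.eq_zero_or_pos n with hn0 | hn0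
  · subst hn0
    simp
  have hc : 1 ≤ c := by
    rcases Nat.eq_zero_or_pos c with h | h
    · subst h
      have : 0 < n ^ 2 := by positivity
      omega
    · exact h
  rcases Nat.lt_or_ge n (2 * c) with q | q
  · obtain ⟨s, r, h⟩ := hRED0 n c d χ k hk
    set b := min c n with hb
    have hb1 : 1 ≤ b := by omega
    have k1 := main_small hB b s r hb1
    have k2 : (T b 1 s r : ℝ) ≤ T b 0 s r := by exact_mod_cast T_one b 0 s r
    have k3 : (n : ℝ) ≤ 2 * b := by exact_mod_cast (by omega : n ≤ 2 * b)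
    have hbn : (b : ℝ) ≤ n := by exact_mod_cast (by omega : b ≤ n)
    have k4 : (b : ℝ) * Real.sqrt b ≤ n * Real.sqrt n :=
      mul_le_mul hbn (Real.sqrt_le_sqrt hbn) (Real.sqrt_nonneg _) (Nat.cast_nonneg n)
    have k5 : (0 : ℝ) ≤ n := Nat.cast_nonneg n
    have k6 : (n : ℝ) ^ 2 ≤ 4 * (b : ℝ) ^ 2 := by nlinarith
    have k7 : (0 : ℝ) ≤ n * Real.sqrt n := by positivity
    have k8 : (0 : ℝ) ≤ (n : ℝ) ^ 2 := by positivity
    linarith
  · obtain ⟨s, r, h⟩ := hRED n c d χ k hk q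
    set D := min n (max d (2 * c)) with hD
    have hD1 : 2 * c ≤ D := by omega
    have hD2 : D ≤ n := by omega
    have k1 := numbers (fun c s r h => main_small hB c s r h) (fun c u s r => main_seg hB c u s r)
      (fun c s r => main_eq hB c s r) hW n c (D - 2 * c) (n - D) s r (by omega) hc hcn
    have k2 : (0 : ℝ) ≤ n * Real.sqrt n := by positivity
    nlinarith

end Pool.Agent.Helper55.SCH
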