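import Pool.Agent.Helper55.SCH.Fin

set_option autoImplicit false

namespace Pool.Agent.Helper55.SCH

open Finset Pool.Agent.Helper33.Schur

theorem top :
    ∃ K : ℝ,
      (∀ (n c d : ℕ) (χ : ℕ → Fin 3) (k : Fin 3),
        (∀ x ∈ Icc 1 n, (χ x = k ↔ c < x ∧ x ≤ d)) → 2 * n ^ 2 ≤ 67 * c ^ 2 →
        (n : ℝ) ^ 2 / 134 - K * (n * Real.sqrt n) ≤ schurMono χ n) ∧
      (∀ n : ℕ, 5 ≤ n → ∃ (c d : ℕ) (χ : ℕ → Fin 3) (k : Fin 3),
        (∀ x ∈ Icc 1 n, (χ x = k ↔ c < x ∧ x ≤ d)) ∧ 2 * n ^ 2 ≤ 67 * c ^ 2 ∧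
        (schurMono χ n : ℝ) ≤ (n : ℝ) ^ 2 / 134 + K * n) := by
  obtain ⟨K1, h1⟩ := interval_class
  obtain ⟨K2, _, h2⟩ := Pool.Agent.Helper43.LO.main
  refine ⟨max K1 K2, ?_, ?_⟩
  · intro n c d χ k hk hc
    refine le_trans ?_ (h1 n c d χ k hk hc)
    have h3 : K1 * (n * Real.sqrt n) ≤ max K1 K2 * (n * Real.sqrt n) :=
      mul_le_mul_of_nonneg_right (le_max_left _ _) (by positivity)
    linarith
  · intro n hn
    obtain ⟨h3, h4⟩ := ref_class n hn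
    refine ⟨26 * n / 67, 54 * n / 67, Pool.Agent.Helper43.LO.ref n, 2, h3, h4, ?_⟩
    refine le_trans (h2 n) ?_
    have h5 : K2 * (n : ℝ) ≤ max K1 K2 * n :=
      mul_le_mul_of_nonneg_right (le_max_right _ _) (by positivity)
    linarith

end Pool.Agent.Helper55.SCH
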